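import Mathlib
import Pool.Agent.helper68.AM.SpecX

/-!
Project SF (MP_d52931_gt): the square-root law FAILS for a hyperbolic metric on the one-holed torus and one of
the curves `a⁴b³`, `a⁴b⁻³`. Definitions. The paper proof is `helper68_SL_full.md` in the team store.
-/

set_option autoImplicit false

namespace SF

open Pool.Agent.helper72.Sq
open scoped ContDiff

/-! ## The character modulo 5 -/

/-- the alternating sum `F(1/5) - F(2/5) - F(3/5) + F(4/5)` (quadratic character modulo 5) -/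
noncomputable def c5 (F : ℝ → ℝ) : ℝ := F (1 / 5) - F (2 / 5) - F (3 / 5) + F (4 / 5)

/-- the quadratic character modulo 5 -/
def chi (m : ℤ) : ℝ :=
  if m % 5 = 1 ∨ m % 5 = 4 then 1 else if m % 5 = 2 ∨ m % 5 = 3 then -1 else 0

/-- the step function: `1` on `(1/5, 2/5)`, `-1` on `(3/5, 4/5)`, `0` elsewhere, mean values at the
jumps; of period 1 -/
noncomputable def psi (x : ℝ) : ℝ := 1 / 2 * c5 (fun r => Real.sign (Int.fract x - r))

/-! ## Partial derivatives of functions of `(s, x, y)` -/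

/-- `∂/∂s` -/
noncomputable def dS (f : ℝ → ℝ → ℝ → ℝ) (s x y : ℝ) : ℝ := deriv (fun t => f t x y) s
/-- `∂/∂x` -/
noncomputable def dX (f : ℝ → ℝ → ℝ → ℝ) (s x y : ℝ) : ℝ := deriv (fun t => f s t y) x
/-- `∂/∂y` -/
noncomputable def dY (f : ℝ → ℝ → ℝ → ℝ) (s x y : ℝ) : ℝ := deriv (fun t => f s x t) y

/-- smooth on `{y > 0}` -/
def Sm (f : ℝ → ℝ → ℝ → ℝ) : Prop :=
  ContDiffOn ℝ ∞ (fun p : ℝ × ℝ × ℝ => f p.1 p.2.1 p.2.2) {p | 0 < p.2.2}

/-- the wave equation `f_ss = 4 y² Δ f + f` -/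
def Wv (f : ℝ → ℝ → ℝ → ℝ) : Prop :=
  ∀ s x y, 0 < y → dS (dS f) s x y = 4 * y ^ 2 * (dX (dX f) s x y + dY (dY f) s x y) + f s x y

/-! ## Profiles -/

/-- smooth, supported in `[1, 3]` -/
structure Prof (g : ℝ → ℝ) : Prop where
  smooth : ContDiff ℝ ∞ g
  lo : ∀ a, a ≤ 1 → g a = 0
  hi : ∀ a, 3 ≤ a → g a = 0

/-- the derivatives up to order `k` are bounded by `B` -/
def Bd (k : ℕ) (B : ℝ) (g : ℝ → ℝ) : Prop := ∀ j ≤ k, ∀ a, |iteratedDeriv j g a| ≤ B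

/-- the time derivative on profiles -/
noncomputable def DD (g : ℝ → ℝ) : ℝ → ℝ := fun a => 2 * a * deriv g a

/-! ## The wave -/

/-- `N(A, c)`, for `A > 0`, `|c| ≤ 1` -/
noncomputable def NN (g : ℝ → ℝ) (A c : ℝ) : ℝ :=
  A * ∫ p in (0 : ℝ)..c, ∫ t : ℝ, deriv g (A * (p ^ 2 + t ^ 2 + 1 - c ^ 2))

/-- the kernel `κ₁` -/
noncomputable def k1 (g : ℝ → ℝ) (s x y : ℝ) : ℝ :=
  √y / (5 * Real.pi * √(x ^ 2 + y ^ 2)) *
    NN g (Real.exp (2 * s) / (25 * y)) (x / √(x ^ 2 + y ^ 2))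

/-- `β₀` -/
noncomputable def b0 (g : ℝ → ℝ) (s y : ℝ) : ℝ := √y * g (Real.exp (2 * s) * y)

/-- `β₁ (z) = β₀ (-1 / (25 z))` -/
noncomputable def b1 (g : ℝ → ℝ) (s x y : ℝ) : ℝ :=
  √y / (5 * √(x ^ 2 + y ^ 2)) * g (Real.exp (2 * s) * y / (25 * (x ^ 2 + y ^ 2)))

/-- one block of the sum `ℛ` -/
noncomputable def Bk (g : ℝ → ℝ) (s x y x0 k : ℝ) : ℝ :=
  c5 (fun r => k1 g s (x + k + r) y + 1 / 2 * Real.sign (x0 + k + r) * b1 g s (x + k + r) y)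

/-- the sum `ℛ` -/
noncomputable def RR (g : ℝ → ℝ) (s x y x0 : ℝ) : ℝ := ∑' k : ℤ, Bk g s x y x0 k

/-- real part of `(a z + b) / (c z + d)` -/
noncomputable def Xr (a b c d x y : ℝ) : ℝ :=
  ((a * x + b) * (c * x + d) + a * c * y ^ 2) / ((c * x + d) ^ 2 + (c * y) ^ 2)

/-- imaginary part of `(a z + b) / (c z + d)` (for determinant 1) -/
noncomputable def Yr (c d x y : ℝ) : ℝ := y / ((c * x + d) ^ 2 + (c * y) ^ 2)

/-- `Re (γ_v z)`, where `γ_v ∈ SL₂(ℤ)` has the bottom row `v` -/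
noncomputable def XX (v : ℤ × ℤ) (x y : ℝ) : ℝ :=
  Xr (Int.gcdB v.1 v.2) (-(Int.gcdA v.1 v.2 : ℝ)) v.1 v.2 x y

/-- `Im (γ_v z)` -/
noncomputable def YY (v : ℤ × ℤ) (x y : ℝ) : ℝ := Yr v.1 v.2 x y

/-- the term of `v` -/
noncomputable def FF (g : ℝ → ℝ) (v : ℤ × ℤ) (s x y : ℝ) : ℝ :=
  psi (XX v 0 1) * b0 g s (YY v x y) + RR g s (XX v x y) (YY v x y) (XX v 0 1)

/-- primitive vectors -/
def Pv : Set (ℤ × ℤ) := {v | Int.gcd v.1 v.2 = 1}

/-- the wave -/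
noncomputable def ww (g : ℝ → ℝ) (s x y : ℝ) : ℝ := 1 / 2 * ∑ᶠ v ∈ Pv, FF g v s x y

/-! ## The cone function -/

/-- `q(y) = y l'² + l² / y` -/
noncomputable def qq (l l' y : ℝ) : ℝ := y * l' ^ 2 + l ^ 2 / y

/-- the cone function `j(l, l')` -/
noncomputable def jj (g : ℝ → ℝ) (l l' : ℝ) : ℝ :=
  1 / 2 * ∫ y in Set.Ioi (0 : ℝ),
    1 / √(qq l l' y) * dX (ww g) (-(1 / 2) * Real.log (qq l l' y)) 0 y

/-- `𝒢` -/
noncomputable def GG (g : ℝ → ℝ) (r : ℝ) : ℝ := g (1 / r ^ 2) / r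

/-- `Φ` -/
noncomputable def Ph (g : ℝ → ℝ) (ρ : ℝ) : ℝ :=
  ρ * ∫ t in Set.Ioi (0 : ℝ), deriv (GG g) (√(ρ ^ 2 + t ^ 2)) / √(ρ ^ 2 + t ^ 2)

/-! ## Words and nodes -/

/-- basis at the end of a path -/
def bs : List Bool → (ℤ × ℤ) × (ℤ × ℤ) → (ℤ × ℤ) × (ℤ × ℤ)
  | [], x => x
  | true :: w, x => bs w (x.1, x.1 + x.2)
  | false :: w, x => bs w (x.1 + x.2, x.2)

/-- the basis of the word -/
def bw (w : List Bool) : (ℤ × ℤ) × (ℤ × ℤ) := bs w ((1, 0), (0, 1))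

/-- the mediant of the word -/
def md (w : List Bool) : ℤ × ℤ := (bw w).1 + (bw w).2

/-- the weight of the word -/
noncomputable def pw (w : List Bool) : ℝ := psi (XX (md w) 0 1)

/-- the sum of all `ψ Φ(α l + β l')` -/
noncomputable def jp (g : ℝ → ℝ) (l l' : ℝ) : ℝ :=
  ∑ᶠ w : List Bool, pw w * Ph g ((md w).1 * l + (md w).2 * l')

/-- the contribution of a node -/
noncomputable def GJ (g : ℝ → ℝ) (R : ℝ) (Q : Tri) : ℝ :=
  jj g (len Q.1 / R) (len Q.2.2 / R) + jj g (len Q.2.2 / R) (len Q.2.1 / R) -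
    jj g (len Q.1 / R) (len Q.2.1 / R)

/-- the wave sum of the metric `P` -/
noncomputable def Sw (g : ℝ → ℝ) (P : Tri) (R : ℝ) : ℝ :=
  (∑' w : List Bool, GJ g R (desc w P)) + ∑' w : List Bool, GJ g R (desc w (Tw P))

/-- the physical sum of the metric `P` -/
noncomputable def Sp (g : ℝ → ℝ) (P : Tri) (R : ℝ) : ℝ :=
  (∑ᶠ w : List Bool, pw w * Ph g (len (desc w P).2.2 / R)) +
    ∑ᶠ w : List Bool, pw w * Ph g (len (desc w (Tw P)).2.2 / R)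

open Classical in
/-- the combinatorial weight -/
noncomputable def psi0 (w : List Bool) : ℝ :=
  if [true, false, false] <:+ w ∨ [true, false, false, false] <:+ w ∨ [false, true, false] <:+ w then 1
  else if [false, true, true] <:+ w ∨ [false, true, true, true] <:+ w ∨ [true, false, true] <:+ w
    then -1 else 0

/-- the weighted count of the simple curves -/
noncomputable def SC (P : Tri) (R : ℝ) : ℝ :=
  (∑ᶠ w ∈ {w : List Bool | len (desc w P).2.2 ≤ R}, psi0 w) +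
    ∑ᶠ w ∈ {w : List Bool | len (desc w (Tw P)).2.2 ≤ R}, psi0 w

/-- the law with bounded error -/
def WL (ρ : F2 →* Matrix.SpecialLinearGroup (Fin 2) ℝ) (g : F2) : Prop :=
  ∃ e : ℕ ≃ orb g, Monotone (fun k => cLen ρ (e k)) ∧
    ∃ u v C : ℝ, ∀ k : ℕ, |u * √((k : ℝ) + 1) + v - cLen ρ (e k)| ≤ C

/-- the weighted count is quadratic up to a linear error -/
def QL (P : Tri) : Prop := ∃ c C : ℝ, ∀ R : ℝ, 1 ≤ R → |SC P R - c * R ^ 2| ≤ C * R

end SF
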