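import Mathlib
import Pool.Agent.helper68.SF.Defs

/-!
Project SF (MP_d52931_gt), block sw: THE WAVE. Statements of the modules with proofs.

Rules: module `XX` is the theorem `SF.XX (h : YY_stmt) ... : XX_stmt` in `Pool/Agent/<seat>/SF/XX.lean`
(import `Pool.Agent.helper68.SF.SpecW`, namespace `SF`, auxiliary lemmas prefixed `XX_`, no double quotes).
Every other statement of the block may be a hypothesis (no circles).

Notation: `r² = x² + y²`, `A = e^{2s} / (25 y)`, `c = x / r`, so `1 - c² = y² / r²`.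
-/

set_option autoImplicit false

namespace SF

open Pool.Agent.helper72.Sq
open scoped ContDiff

/-! ## Calculus -/

/-- BS: calculus of the partial derivatives of a smooth function of `(s, x, y)`, `y > 0`. All are
directional derivatives `fderiv F p v` of `F (s, x, y)` at interior points of the open set `{y > 0}`
(`ContDiffOn.contDiffAt`, `HasFDerivAt.comp_hasDerivAt`, symmetry of the second derivative:
`ContDiffAt.isSymmSndFDerivAt` or `second_derivative_symmetric`). -/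
def BS_stmt : Prop := ∀ f : ℝ → ℝ → ℝ → ℝ, Sm f →
  Sm (dS f) ∧ Sm (dX f) ∧ Sm (dY f) ∧ ∀ s x y : ℝ, 0 < y →
    HasDerivAt (fun t => f t x y) (dS f s x y) s ∧
    HasDerivAt (fun t => f s t y) (dX f s x y) x ∧
    HasDerivAt (fun t => f s x t) (dY f s x y) y ∧
    dS (dX f) s x y = dX (dS f) s x y ∧
    dS (dY f) s x y = dY (dS f) s x y ∧
    dX (dY f) s x y = dY (dX f) s x y

/-- the change of variables `z ↦ (a z + b) / (c z + d)` -/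
noncomputable def Mb (a b c d : ℝ) (f : ℝ → ℝ → ℝ → ℝ) (s x y : ℝ) : ℝ :=
  f s (Xr a b c d x y) ((a * d - b * c) * y / ((c * x + d) ^ 2 + (c * y) ^ 2))

/-- MOB: the wave equation is invariant under Möbius maps with positive determinant. For `z = x + i y`
put `X + i Y = (a z + b) / (c z + d)`, `N = |c z + d|² = (c x + d)² + (c y)²`. Cauchy-Riemann: `X_x = Y_y`,
`X_y = - Y_x`, `X_x² + X_y² = (a d - b c)² / N²`, `X_xx + X_yy = 0 = Y_xx + Y_yy`. Hence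
`Δ (f ∘) = ((a d - b c) / N)² (Δ f) ∘` and `y² ((a d - b c) / N)² = Y²`. (One may prove it for
translations, `z ↦ t z` and `z ↦ -1 / z` and compose, or directly.) -/
def MOB_stmt : Prop := ∀ a b c d : ℝ, 0 < a * d - b * c → ∀ f : ℝ → ℝ → ℝ → ℝ, Sm f → Wv f →
  Sm (Mb a b c d f) ∧ Wv (Mb a b c d f)

/-- PI: parametric integrals over a bounded interval are smooth (look in Mathlib first; otherwise
induction on the order with values in a Banach space and `hasFDerivAt_integral_of_dominated_of_fderiv_le`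
on a compact neighbourhood). -/
def PI_stmt : Prop := ∀ (E : Type) [NormedAddCommGroup E] [NormedSpace ℝ E] [FiniteDimensional ℝ E]
  (U : Set E) (F : E → ℝ → ℝ) (a b : ℝ), IsOpen U →
  ContDiffOn ℝ ∞ (fun p : E × ℝ => F p.1 p.2) (U ×ˢ Set.univ) →
  ContDiffOn ℝ ∞ (fun e => ∫ t in a..b, F e t) U

/-- HAD: division by `τ²`. `G (τ, p) = ∫_0^1 (1 - u) ∂_τ² M (u τ, p) du` (Taylor with integral remainder;
smooth by PI). -/
def HAD_stmt : Prop := ∀ (δ : ℝ) (V : Set (ℝ × ℝ × ℝ)) (M : ℝ × (ℝ × ℝ × ℝ) → ℝ), 0 < δ → IsOpen V →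
  ContDiffOn ℝ ∞ M (Set.Ioo (-δ) δ ×ˢ V) → (∀ p ∈ V, M (0, p) = 0) →
  (∀ p ∈ V, deriv (fun τ => M (τ, p)) 0 = 0) →
  ∃ G : ℝ × (ℝ × ℝ × ℝ) → ℝ, ContDiffOn ℝ ∞ G (Set.Ioo (-δ) δ ×ˢ V) ∧
    ∀ τ ∈ Set.Ioo (-δ) δ, ∀ p ∈ V, M (τ, p) = τ ^ 2 * G (τ, p)

/-- the open half space -/
def HH : Set (ℝ × ℝ × ℝ) := {p | 0 < p.2.2}

/-- families of smooth functions which are, locally, `k⁻² G (1 / k, ·)` for large `|k|` -/
def Cl (F : ℤ → ℝ × ℝ × ℝ → ℝ) : Prop :=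
  (∀ k, ContDiffOn ℝ ∞ (F k) HH) ∧
  ∀ p0 ∈ HH, ∃ (V : Set (ℝ × ℝ × ℝ)) (δ : ℝ) (k0 : ℤ) (G : ℝ × (ℝ × ℝ × ℝ) → ℝ),
    IsOpen V ∧ p0 ∈ V ∧ V ⊆ HH ∧ 0 < δ ∧ 1 ≤ k0 ∧ 1 / (k0 : ℝ) < δ ∧
    ContDiffOn ℝ ∞ G (Set.Ioo (-δ) δ ×ˢ V) ∧
    ∀ k : ℤ, k0 ≤ |k| → ∀ p ∈ V, F k p = 1 / (k : ℝ) ^ 2 * G (1 / (k : ℝ), p)

/-- PSA: the class is closed under directional derivatives (`∂_v` of `G` in the second variable). -/
def PSA_stmt : Prop := ∀ F, Cl F → ∀ v : ℝ × ℝ × ℝ, Cl (fun k p => fderiv ℝ (F k) p v)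

/-- PSC: locally uniform bounds for functions of the class. Near `p0` shrink `V` to a compact
neighbourhood; `G` is bounded on `[-1/k0, 1/k0] ×` compact; the finitely many `|k| < k0` are bounded
by continuity. -/
def PSC_stmt : Prop := ∀ F, Cl F → ∀ p0 ∈ HH, ∃ (V : Set (ℝ × ℝ × ℝ)) (C : ℝ), IsOpen V ∧ p0 ∈ V ∧
  V ⊆ HH ∧ 0 < C ∧ ∀ k : ℤ, ∀ p ∈ V, |F k p| ≤ C / (1 + (k : ℝ) ^ 2)

/-- PSB: the sum is smooth and can be differentiated term by term. The derivative in the direction `v`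
of the sum is the sum of the derivatives by PSA, PSC (`hasFDerivAt_tsum_of_isPreconnected` or
`hasDerivAt_tsum` on balls, with the bound of PSC for the derivatives in the three coordinate
directions); it is again a sum of the same kind, hence continuous, and so on: induction on the order,
`contDiffOn_succ_iff_fderiv_of_isOpen`, `contDiffOn_infty`. -/
def PSB_stmt : Prop := ∀ F, Cl F →
  ContDiffOn ℝ ∞ (fun p => ∑' k, F k p) HH ∧
  (∀ p ∈ HH, Summable (fun k => F k p)) ∧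
  ∀ p ∈ HH, ∀ v : ℝ × ℝ × ℝ, fderiv ℝ (fun p => ∑' k, F k p) p v = ∑' k, fderiv ℝ (F k) p v

/-! ## The kernels -/

/-- PD: the time derivative preserves profiles, with bounds (`a ≤ 3` on the support). -/
def PD_stmt : Prop := ∀ g : ℝ → ℝ, Prof g → Prof (DD g) ∧
  ∀ (k : ℕ) (B : ℝ), Bd (k + 1) B g → Bd k ((6 + 2 * k) * B) (DD g)

/-- NS: `N` is smooth for `A > 0`. Substitute `p = c v`: `N = A c ∫_0^1 ∫ g' (A (c² v² + t² + 1 - c²)) dt dv`;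
for `A > A0 > 0`, `|c| < C` the integrand vanishes if `t² > 3 / A0 + C²`, so the inner integral is over a
bounded interval; PI twice (with `E = ℝ × ℝ × ℝ` for the inner one). -/
def NS_stmt : Prop := ∀ g : ℝ → ℝ, Prof g →
  ContDiffOn ℝ ∞ (fun p : ℝ × ℝ => NN g p.1 p.2) {p | 0 < p.1}

/-- NO: `N` is odd in `c`. -/
def NO_stmt : Prop := ∀ (g : ℝ → ℝ) (A c : ℝ), NN g A (-c) = -NN g A c

/-- N3: for `A ≥ 3` the region `p² + 1 - c² ≥ 3 / A` does not contribute; so for `c > 0` the integral over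
`0 < p < c` is the one over the half plane, in polar coordinates
`π ∫_0^∞ g' (A (ρ² + 1 - c²)) ρ dρ = -(π / (2 A)) g (A (1 - c²))` (`integral_comp_polarCoord_symm`). -/
def N3_stmt : Prop := ∀ g : ℝ → ℝ, Prof g → ∀ A c : ℝ, 3 ≤ A → 0 < c → c ≤ 1 →
  NN g A c = -(Real.pi / 2) * g (A * (1 - c ^ 2))

/-- NB: bounds for `N` and its derivatives. With `h (v) = A ∫ g' (A (t² + v)) dt`, which vanishes for
`v ≥ 3 / A` and satisfies `|h| ≤ 2 √3 √A B`, `|h'| ≤ 2 √3 A^{3/2} B`, `|h''| ≤ 2 √3 A^{5/2} B` for `v ≥ 0` one has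
`N = ∫_0^c h (p² + 1 - c²) dp`, `N_c = h (1) - 2 c ∫_0^c h' (p² + 1 - c²) dp`, and so on;
`A ∂_A N = N + ∫∫ A σ g'' (σ)`, `σ = A (p² + t² + 1 - c²) ≤ 3` on the support. (For `|c| ≤ 1`; derivatives
at `c = ± 1` exist since `N` is smooth in `c`.) -/
def NB_stmt : Prop := ∃ C : ℝ, 0 < C ∧ ∀ (g : ℝ → ℝ) (B : ℝ), Prof g → Bd 4 B g →
  ∀ A c : ℝ, 0 < A → |c| ≤ 1 →
    |NN g A c| ≤ C * B * √A ∧
    |deriv (fun t => NN g A t) c| ≤ C * B * √A * (1 + A) ^ 2 ∧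
    |deriv (fun t => deriv (fun u => NN g A u) t) c| ≤ C * B * √A * (1 + A) ^ 2 ∧
    A * |deriv (fun a => NN g a c) A| ≤ C * B * √A * (1 + A) ^ 2 ∧
    A * |deriv (fun a => deriv (fun t => NN g a t) c) A| ≤ C * B * √A * (1 + A) ^ 2

/-- the kernel `κ₀` -/
noncomputable def k0 (g : ℝ → ℝ) (s x y : ℝ) : ℝ :=
  -(Real.exp (2 * s) / (Real.pi * √y)) *
    ∫ ξ in (0 : ℝ)..x, ∫ t : ℝ, deriv g (Real.exp (2 * s) * (ξ ^ 2 + t ^ 2 + y ^ 2) / y)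

/-- K0: `κ₀` is smooth and solves the wave equation; time derivative. Put
`Q (s, ξ, t, y) = e^{2s} y^{-1/2} g' (e^{2s} (ξ² + t² + y²) / y)`; then `Q_ss = 4 y² (Q_ξξ + Q_tt + Q_yy) + Q`
(direct computation) and `κ₀ = -(1/π) ∫_0^x ∫_ℝ Q dt dξ`. Differentiate under the integral (locally the
`t`-integral is over a bounded interval); `∫ Q_tt dt = 0`, `∫_0^x Q_ξξ dξ = Q_ξ (x) - Q_ξ (0)`, `Q_ξ (0) = 0`,
`∂_x² κ₀ = -(1/π) ∫ Q_ξ (x, t) dt`. `∂_s Q_g = Q_{DD g}`. Smoothness: `ξ = x v` and PI twice. -/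
def K0_stmt : Prop := ∀ g : ℝ → ℝ, Prof g → Sm (k0 g) ∧ Wv (k0 g) ∧
  ∀ s x y : ℝ, 0 < y → dS (k0 g) s x y = k0 (DD g) s x y

/-- K01: `κ₁ (z) = κ₀ (-1 / (25 z))`. Substitute `ξ = - p / (25 r)`, `t = q / (25 r)`. -/
def K01_stmt : Prop := ∀ (g : ℝ → ℝ) (s x y : ℝ), 0 < y →
  k1 g s x y = k0 g s (-(x / (25 * (x ^ 2 + y ^ 2)))) (y / (25 * (x ^ 2 + y ^ 2)))

/-- K1: `κ₁` is smooth, solves the wave equation (K0, K01, MOB with `z ↦ -1 / (25 z)`), its time derivative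
(K0, K01), oddness (NO), and its value for `A ≥ 3` (N3, NO; for `x = 0` both sides vanish). -/
def K1_stmt : Prop := ∀ g : ℝ → ℝ, Prof g → Sm (k1 g) ∧ Wv (k1 g) ∧
  (∀ s x y : ℝ, 0 < y → dS (k1 g) s x y = k1 (DD g) s x y) ∧
  (∀ s x y : ℝ, k1 g s (-x) y = -k1 g s x y) ∧
  ∀ s x y : ℝ, 0 < y → 3 ≤ Real.exp (2 * s) / (25 * y) →
    k1 g s x y = -(1 / 2) * Real.sign x * b1 g s x y

/-- B01: `β₀`, `β₁` are smooth, solve the wave equation; time derivatives; `β₁` is even in `x`. -/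
def B01_stmt : Prop := ∀ g : ℝ → ℝ, Prof g →
  (Sm (fun s _ y => b0 g s y) ∧ Wv (fun s _ y => b0 g s y) ∧
    ∀ s x y : ℝ, 0 < y → dS (fun s _ y => b0 g s y) s x y = b0 (DD g) s y) ∧
  Sm (b1 g) ∧ Wv (b1 g) ∧ (∀ s x y : ℝ, 0 < y → dS (b1 g) s x y = b1 (DD g) s x y) ∧
  (∀ s x y : ℝ, b1 g s (-x) y = b1 g s x y) ∧
  (∀ s x y : ℝ, 0 < y → b1 g s x y = b0 g s (y / (25 * (x ^ 2 + y ^ 2))))

/-- KB: bounds for the kernels. `√y √A = e^s / 5`. `∂_x r⁻¹ = -x / r³`, `∂_x c = y² / r³`, `∂_y c = - x y / r³`,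
`∂_y A = - A / y`; NB for `κ₁`. For `β₁`: on its support `A ≥ r² / y² ≥ 1`, so `√y / r ≤ e^s / (5 r)`. -/
def KB_stmt : Prop := ∃ C : ℝ, 0 < C ∧ ∀ (g : ℝ → ℝ) (B : ℝ), Prof g → Bd 4 B g →
  ∀ f, (f = k1 g ∨ f = b1 g) → ∀ s x y : ℝ, 0 < y →
    let M := C * B * Real.exp s * (1 + Real.exp (2 * s) / (25 * y)) ^ 4
    let r := √(x ^ 2 + y ^ 2)
    |f s x y| ≤ M / r ∧ |dX f s x y| ≤ M / r ^ 2 ∧ |dX (dX f) s x y| ≤ M / r ^ 3 ∧
    |dY f s x y| ≤ M / (y * r) ∧ |dX (dY f) s x y| ≤ M / (y * r ^ 2)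

/-- C5A: the alternating sum kills constants and linear functions: first differences. For `h` with
derivative `h'` on `[a, a + 1]`: `c5 (h (a + ·)) = ∫ K(t) h'(a + t) dt` with `|K| ≤ 1` supported in
`[1/5, 4/5]`. Stated for continuous `h` with a derivative off a point `t0` (a kink). -/
def C5A_stmt : Prop := ∀ (h h' : ℝ → ℝ) (a t0 : ℝ), Continuous h →
  (∀ t, t ≠ t0 → HasDerivAt h (h' t) t) → IntervalIntegrable h' MeasureTheory.volume a (a + 1) →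
  |c5 (fun r => h (a + r))| ≤ ∫ t in a..(a + 1), |h' t|

/-! ## The sum `ℛ` -/

/-- KC: the blocks form a family of the class `Cl`. Near `p0 = (s, x, y)` and for `|k|` large,
`sign (x0 + k + r) = sign k` and `β₁ (s, x + k + r, y) = 0` (`e^{2s} y < 25 (x + k + r)²`), and with `τ = 1 / k`,
`ϑ_r = 1 / (x + k + r) = τ / (1 + τ (x + r))` one has `κ₁ (s, x + k + r, y) = H (s, ϑ_r, y)`,
`H (s, ϑ, y) = √y / (5 π) ϑ (1 + ϑ² y²)^{-1/2} N (e^{2s} / (25 y), (1 + ϑ² y²)^{-1/2})` (both signs of `ϑ`, NO), which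
is smooth in `(s, ϑ, y)` near `ϑ = 0` by NS. `M (τ, p) = c5 (fun r => H (s, τ / (1 + τ (x + r)), y))` vanishes at
`τ = 0` together with `∂_τ M = c5 (fun _ => H_ϑ (s, 0, y)) = 0`. HAD. -/
def KC_stmt : Prop := ∀ g : ℝ → ℝ, Prof g → ∀ x0 : ℝ,
  Cl (fun k p => Bk g p.1 p.2.1 p.2.2 x0 k)

/-- RA: properties of `ℛ` (KC, PSA, PSB, K1, B01): smooth, solves the wave equation (term by term,
`dX`, `dY`, `dS` are directional derivatives), time derivative, term by term first derivatives. -/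
def RA_stmt : Prop := ∀ g : ℝ → ℝ, Prof g → ∀ x0 : ℝ,
  Sm (fun s x y => RR g s x y x0) ∧ Wv (fun s x y => RR g s x y x0) ∧
  ∀ s x y : ℝ, 0 < y →
    Summable (fun k : ℤ => Bk g s x y x0 k) ∧
    dS (fun s x y => RR g s x y x0) s x y = RR (DD g) s x y x0 ∧
    dX (fun s x y => RR g s x y x0) s x y = ∑' k : ℤ, dX (fun s x y => Bk g s x y x0 k) s x y ∧
    dY (fun s x y => RR g s x y x0) s x y = ∑' k : ℤ, dY (fun s x y => Bk g s x y x0 k) s x y ∧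
    Summable (fun k : ℤ => dX (fun s x y => Bk g s x y x0 k) s x y) ∧
    Summable (fun k : ℤ => dY (fun s x y => Bk g s x y x0 k) s x y)

/-- RO: symmetries of `ℛ`: `k ↦ -1 - k`, `r ↦ 1 - r`; shift of `k`. -/
def RO_stmt : Prop := ∀ g : ℝ → ℝ, Prof g → ∀ s x y x0 : ℝ, 0 < y →
  RR g s (-x) y (-x0) = -RR g s x y x0 ∧ ∀ n : ℤ, RR g s (x + n) y (x0 + n) = RR g s x y x0

/-- RH: the high regime `A ≥ 3` (K1): only sign changes contribute. -/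
def RH_stmt : Prop := ∀ g : ℝ → ℝ, Prof g → ∀ s x y x0 k : ℝ, 0 < y →
  3 ≤ Real.exp (2 * s) / (25 * y) →
  Bk g s x y x0 k = c5 (fun r => 1 / 2 * (Real.sign (x0 + k + r) - Real.sign (x + k + r)) *
    b1 g s (x + k + r) y)

/-- RJ: change of the base point in `ℛ` (the difference of two summable families with finite support;
`m = 5 k + 5 r`). -/
def RJ_stmt : Prop := ∀ g : ℝ → ℝ, Prof g → ∀ s x y x0 x1 : ℝ, 0 < y →
  {m : ℤ | Real.sign (x1 + m / 5) ≠ Real.sign (x0 + m / 5)}.Finite ∧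
  RR g s x y x1 - RR g s x y x0 =
    ∑ᶠ m : ℤ, chi m * (1 / 2 * (Real.sign (x1 + m / 5) - Real.sign (x0 + m / 5)) *
      b1 g s (x + m / 5) y)

/-- PJ: the jumps of `ψ`; `ψ` is odd and of period 1. (`ψ (x) = 1/2 c5 (sign (fract x - ·))`; both sides are
additive in `(x0, x1)`, so one may reduce to `x0`, `x1` in one period `[n, n + 1]`.) -/
def PJ_stmt : Prop := (∀ x : ℝ, psi (-x) = -psi x) ∧ (∀ (x : ℝ) (n : ℤ), psi (x + n) = psi x) ∧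
  (∀ x, |psi x| ≤ 1) ∧
  ∀ x0 x1 : ℝ, {m : ℤ | Real.sign (x1 - m / 5) ≠ Real.sign (x0 - m / 5)}.Finite ∧
  psi x1 - psi x0 =
    ∑ᶠ m : ℤ, chi m * (1 / 2 * (Real.sign (x1 - m / 5) - Real.sign (x0 - m / 5)))

/-- RB: bounds for `ℛ` and its gradient: KB, C5A for `t ↦ κ₁ (s, x + t, y) + ½ σ β₁ (s, x + t, y)` on the blocks
without sign change (`σ = ± 1` constant), and the trivial bound (four terms) for the at most one block
with a sign change: it contributes `≤ 8 M / y` to `ℛ`, `≤ 8 M / y²` to the gradient; the sums over the other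
blocks are `≤ 2 ∫ M / r² dx = 2 π M / y` and `≤ 2 ∫ M / r³ dx`, `2 ∫ M / (y r²) dx`. Only the first
derivatives in the list RA are needed. -/
def RB_stmt : Prop := ∃ C : ℝ, 0 < C ∧ ∀ (g : ℝ → ℝ) (B : ℝ), Prof g → Bd 4 B g →
  ∀ s x y x0 : ℝ, 0 < y →
    let M := C * B * Real.exp s * (1 + Real.exp (2 * s) / (25 * y)) ^ 4
    |RR g s x y x0| ≤ M / y ∧ |dX (fun s x y => RR g s x y x0) s x y| ≤ M / y ^ 2 ∧
    |dY (fun s x y => RR g s x y x0) s x y| ≤ M / y ^ 2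

/-! ## The modular group -/

/-- complement of a primitive vector: `det (cpl v, v) = 1` -/
def cpl (v : ℤ × ℤ) : ℤ × ℤ := (Int.gcdB v.1 v.2, -Int.gcdA v.1 v.2)

/-- determinant -/
def dt (u v : ℤ × ℤ) : ℤ := u.1 * v.2 - u.2 * v.1

/-- the form `Re ((u₁ z + u₂) conj (v₁ z + v₂))` -/
noncomputable def ip (u v : ℤ × ℤ) (x y : ℝ) : ℝ :=
  (u.1 * x + u.2) * (v.1 * x + v.2) + u.1 * v.1 * y ^ 2

/-- MG: formulas. `X_v = ip e v / ip v v`, `Y_v = y / ip v v` with `e = cpl v`; Bezout. -/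
def MG_stmt : Prop :=
  (∀ v ∈ Pv, dt (cpl v) v = 1) ∧
  (∀ v ∈ Pv, ∀ a b : ℤ, dt (a, b) v = 1 → ∃ n : ℤ, (a, b) = cpl v + n • v) ∧
  (∀ v ∈ Pv, ∀ x y : ℝ, 0 < y → 0 < ip v v x y) ∧
  (∀ v ∈ Pv, ∀ x y : ℝ, 0 < y → ∀ m : ℤ,
    XX v x y + m / 5 = ip ((5 : ℤ) • cpl v + m • v) v x y / (5 * ip v v x y)) ∧
  (∀ v ∈ Pv, ∀ x y : ℝ, 0 < y → YY v x y = y / ip v v x y) ∧
  (∀ u v : ℤ × ℤ, ∀ x y : ℝ, ip u u x y * ip v v x y = ip u v x y ^ 2 + (dt u v : ℝ) ^ 2 * y ^ 2)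

/-- MH: `β₁` at a pair is `β₀` of the first vector. With `u = 5 e + m v`, `dt u v = 5`:
`25 (X² + Y²) = ip u u / ip v v` for `X = X_v + m/5`, `Y = Y_v` (MG, B01). -/
def MH_stmt : Prop := ∀ g : ℝ → ℝ, Prof g → ∀ v ∈ Pv, ∀ (m : ℤ) (s x y : ℝ), 0 < y →
  b1 g s (XX v x y + m / 5) (YY v x y) = b0 g s (YY ((5 : ℤ) • cpl v + m • v) x y)

/-- MS: the generators `z ↦ -1/z`, `z ↦ z + 1`, `z ↦ -conj z` and `v ↦ -v` (the integer does not depend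
on `z`; MG and uniqueness of the complement up to multiples of `v`). -/
def MS_stmt : Prop := ∀ v ∈ Pv,
  (∃ n : ℤ, ∀ x y : ℝ, 0 < y →
    XX v (-(x / (x ^ 2 + y ^ 2))) (y / (x ^ 2 + y ^ 2)) = XX (v.2, -v.1) x y + n ∧
    YY v (-(x / (x ^ 2 + y ^ 2))) (y / (x ^ 2 + y ^ 2)) = YY (v.2, -v.1) x y) ∧
  (∃ n : ℤ, ∀ x y : ℝ, 0 < y →
    XX v (x + 1) y = XX (v.1, v.1 + v.2) x y + n ∧ YY v (x + 1) y = YY (v.1, v.1 + v.2) x y) ∧
  (∃ n : ℤ, ∀ x y : ℝ, 0 < y →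
    XX v (-x) y = -XX (-v.1, v.2) x y + n ∧ YY v (-x) y = YY (-v.1, v.2) x y) ∧
  (∃ n : ℤ, ∀ x y : ℝ, 0 < y → XX (-v) x y = XX v x y + n ∧ YY (-v) x y = YY v x y)

/-- the box -/
def Bx (T x y : ℝ) : Prop := |x| ≤ T ∧ 1 / T ≤ y ∧ y ≤ T

/-- FV: finitely many vectors are short somewhere in a box (`ip v v ≥ v.1² y²`, `|v.1 x + v.2|² ≤ ip v v`). -/
def FV_stmt : Prop := ∀ T C : ℝ, 0 < T →
  {v : ℤ × ℤ | ∃ x y : ℝ, Bx T x y ∧ ip v v x y ≤ C}.Finite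

/-- SCH: sign changes. If `ip u v` has different signs at two points of the box, it vanishes at a point
`z_t` of the segment (which is in the box), where `ip u u ip v v = (dt u v)² y_t²` (MG). Comparison of two points:
`|u.1 z + u.2| ≤ |u.1 z_t + u.2| + |u.1| |z - z_t| ≤ (1 + |z - z_t| / y_t) |u.1 z_t + u.2|`. -/
def SCH_stmt : Prop := ∀ T : ℝ, 0 < T → ∃ C : ℝ, ∀ (u v : ℤ × ℤ) (x y x' y' : ℝ), Bx T x y →
  Bx T x' y' → Real.sign (ip u v x y) ≠ Real.sign (ip u v x' y') →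
  ip u u x y * ip v v x y ≤ C * (dt u v : ℝ) ^ 2

/-- the term of `v` with the base point `(x1, y1)`; `FB g v 0 1 = FF g v` -/
noncomputable def FB (g : ℝ → ℝ) (v : ℤ × ℤ) (x1 y1 s x y : ℝ) : ℝ :=
  psi (XX v x1 y1) * b0 g s (YY v x y) + RR g s (XX v x y) (YY v x y) (XX v x1 y1)

/-- LF: local finiteness. If `b0 ≠ 0` then `e^{2s} Y_v ∈ [1, 3]`, so `ip v v ≤ y e^{2s}`: finitely many `v`
in a box. If `ℛ ≠ 0` and `A = e^{2s} ip v v / (25 y) < 3`: finitely many `v`. If `A ≥ 3`: RH gives `m` such that the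
signs of `ip u v` (`u = 5 cpl v + m v`, MG) at `(x1, y1)` and `(x, y)` differ and (MH)
`e^{2s} y / ip u u ∈ [1, 3]` at `(x, y)`. Then SCH bounds `ip u u ip v v` at `(x, y)`, so `ip v v` is
bounded: finitely many `v` (FV). -/
def LF_stmt : Prop := ∀ g : ℝ → ℝ, Prof g → ∀ x1 y1 S T : ℝ, 0 < y1 → 0 < S → 0 < T →
  {v | v ∈ Pv ∧ ∃ s x y : ℝ, |s| ≤ S ∧ |x| ≤ T ∧ 1 / T ≤ y ∧ y ≤ T ∧ FB g v x1 y1 s x y ≠ 0}.Finite

/-- PAIR: the pairs `(u, v)` of primitive vectors with `dt u v = 5`. They are `(v, m v - 5 cpl v)` for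
`v ∈ Pv`, `m` prime to 5, and also `(5 cpl v + m v, v)`; if `(u, P) = (u, m u - 5 cpl u) = (5 cpl P + m' P, P)` then
`m m' ≡ 1` mod 5 (write `cpl P = a cpl u + b u`: `m' = a`, `a m + 5 b = 1`), so `chi m = chi m'`. Reindex the finite
sum (`finsum_mem_...`, `finsum_curry` or pass to `Finset` sums; `chi m = 0` if `5 ∣ m`). -/
def PAIR_stmt : Prop := ∀ H : ℤ × ℤ → ℤ × ℤ → ℝ,
  {p : (ℤ × ℤ) × (ℤ × ℤ) | dt p.1 p.2 = 5 ∧ p.1 ∈ Pv ∧ p.2 ∈ Pv ∧ H p.1 p.2 ≠ 0}.Finite →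
  ∑ᶠ v ∈ Pv, ∑ᶠ m : ℤ, chi m * H v (m • v - (5 : ℤ) • cpl v) =
    ∑ᶠ v ∈ Pv, ∑ᶠ m : ℤ, chi m * H ((5 : ℤ) • cpl v + m • v) v

/-- BCH: the sum does not depend on the base point. The difference of the two sides is (PJ, RJ)
`Σ_v Σ_m chi m ½ [sign (X_v (z1) - m/5) - sign (X_v (i) - m/5)] b0 (Y_v) +
Σ_P Σ_m chi m ½ [sign (X_P (z1) + m/5) - sign (X_P (i) + m/5)] b1 (X_P + m/5, Y_P)`. By MG the first sign is
the sign of `ip (5 cpl v - m v) v = - ip v (m v - 5 cpl v)`, the second that of `ip (5 cpl P + m P) P`; by MH the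
value of `b1` is `b0 (Y_u)`. PAIR with `H u P = ½ [sign (ip u P z1) - sign (ip u P i)] b0 (Y_u)`; the support is
finite: `b0 ≠ 0` leaves finitely many `u`, and for each `u` the sign change leaves finitely many `P` as in LF. -/
def BCH_stmt : Prop := ∀ g : ℝ → ℝ, Prof g → ∀ x1 y1 s x y : ℝ, 0 < y1 → 0 < y →
  ∑ᶠ v ∈ Pv, FB g v x1 y1 s x y = ∑ᶠ v ∈ Pv, FB g v 0 1 s x y

/-! ## The wave -/

/-- WS: the wave is smooth, solves the wave equation, its time derivative, oddness, and its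
`x`-derivative can be taken term by term. Near a point the sum is over a fixed finite set (LF); each
term is smooth and solves the wave equation (RA, B01, MOB with `γ_v`; MG for `v ∈ Pv`). Oddness:
`v ↦ (-v.1, v.2)`, MS, PJ, RO, `XX v 0 1 = -XX (-v.1, v.2) 0 1 + n` with the same `n`. -/
def WS_stmt : Prop := ∀ g : ℝ → ℝ, Prof g → Sm (ww g) ∧ Wv (ww g) ∧
  (∀ s x y : ℝ, 0 < y → dS (ww g) s x y = ww (DD g) s x y) ∧
  (∀ s x y : ℝ, 0 < y → ww g s (-x) y = -ww g s x y) ∧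
  ∀ s x y : ℝ, 0 < y → {v | v ∈ Pv ∧ dX (FF g v) s x y ≠ 0}.Finite ∧
    dX (ww g) s x y = 1 / 2 * ∑ᶠ v ∈ Pv, dX (FF g v) s x y

/-- WI: invariance. `z ↦ -1/z`: reindex `v ↦ (v.2, -v.1)`, MS at `z` and at the base point `i`, PJ, RO.
`z ↦ z + 1`: reindex `v ↦ (v.1, v.1 + v.2)`: `FF g v s (x + 1) y = FB g v' (-1) 1 s x y`, then BCH. -/
def WI_stmt : Prop := ∀ g : ℝ → ℝ, Prof g → ∀ s x y : ℝ, 0 < y →
  ww g s (-(x / (x ^ 2 + y ^ 2))) (y / (x ^ 2 + y ^ 2)) = ww g s x y ∧ ww g s (x + 1) y = ww g s x y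

/-- WC: decay at the cusp, locally uniformly in time. For `y ≥ Y0 (S)` all terms with `v.1 ≠ 0` vanish:
`Y_v ≤ 1 / y`, so `b0 = 0`, `A ≥ 3`, RH; `b1 ≠ 0` would give `ip u u ≤ e^{2s} y` with `u = 5 cpl v + m v`, `5 ∤ m`
primitive, so `u.1 = 0`, `ip u u = 1 < e^{2s} y / 3`. The terms `(0, 1)`, `(0, -1)` are `RR g s (x + n) y (n)`
(`b0 = 0`; MS, RO): RB. For `1 ≤ y ≤ Y0`: `|x| ≤ 1/2` by WI, continuity on a compact set. -/
def WC_stmt : Prop := ∀ g : ℝ → ℝ, Prof g → ∀ S : ℝ, ∃ C : ℝ, ∀ s x y : ℝ, |s| ≤ S → 1 ≤ y →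
  |ww g s x y| ≤ C / y ∧ |dX (ww g) s x y| ≤ C / y ^ 2 ∧ |dY (ww g) s x y| ≤ C / y ^ 2

/-- W7A: the terms with `v.1 ≠ 0` at the time `5/2` near the fundamental domain
`|x| ≤ 1/2`, `x² + y² ≥ 1` (so `y ≥ √3/2`). `Y_v ≤ 1 / y`. `b0 ≠ 0` needs `ip v v / y ∈ [e⁵/3, e⁵]`: `y ≤ e⁵` and `v` in
a finite set. `A = e⁵ / (25 Y_v) ≥ e⁵ y / 25 > 5 > 3`: RH holds near the point. `b1 ≠ 0` needs
`ip u u / y ∈ [e⁵/3, e⁵]`: `y ≤ e⁵`, `u` in a finite set (`u.1 = 0` would give `1 / y ≥ e⁵ / 3`), and the sign change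
between `i` and `z` leaves finitely many `v` (LF). In the remaining compact region all quantities and
their derivatives are bounded by a constant times `B` (the sign factors are locally constant where
`b1 ≠ 0`: if `X + k + r = 0` then the argument of `g` is `A > 3`). -/
def W7A_stmt : Prop := ∃ C : ℝ, 0 < C ∧ ∃ T : Finset (ℤ × ℤ), ∀ (g : ℝ → ℝ) (B : ℝ), Prof g →
  Bd 4 B g → ∀ x y : ℝ, 0 < y → |x| ≤ 1 / 2 → 1 ≤ x ^ 2 + y ^ 2 → ∀ v ∈ Pv, v.1 ≠ 0 →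
    |FF g v (5 / 2) x y| ≤ C * B / y ^ 2 ∧ |dX (FF g v) (5 / 2) x y| ≤ C * B / y ^ 2 ∧
    |dY (FF g v) (5 / 2) x y| ≤ C * B / y ^ 2 ∧
    (v ∉ T → FF g v (5 / 2) x y = 0 ∧ dX (FF g v) (5 / 2) x y = 0 ∧ dY (FF g v) (5 / 2) x y = 0)

/-- W7: bounds at the time `5/2` with a constant times `B` (W7A; the terms `(0, ± 1)`: RB; the term
`psi b0` vanishes for `(0, ± 1)` since `XX (0, ± 1) 0 1` is an integer, `psi n = 0`). -/
def W7_stmt : Prop := ∃ C : ℝ, 0 < C ∧ ∀ (g : ℝ → ℝ) (B : ℝ), Prof g → Bd 4 B g →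
  ∀ x y : ℝ, 0 < y → |x| ≤ 1 / 2 → 1 ≤ x ^ 2 + y ^ 2 →
    |ww g (5 / 2) x y| ≤ C * B / y ∧ |dX (ww g) (5 / 2) x y| ≤ C * B / y ^ 2 ∧
    |dY (ww g) (5 / 2) x y| ≤ C * B / y ^ 2

end SF
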