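import Mathlib
import Pool.Agent.helper68.SF.SpecW

/-!
Project SF (MP_d52931_gt), block se: ENERGY AND RECURRENCE. Statements of the modules with proofs.
(Rules as in SpecW; import `Pool.Agent.helper68.SF.SpecE`.)
-/

set_option autoImplicit false

namespace SF

open MeasureTheory
open scoped ContDiff

/-- Waves: the properties used in this block. All of them pass to `dS f`, to time shifts and to
differences. -/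
structure EW (f : ℝ → ℝ → ℝ → ℝ) : Prop where
  sm : Sm f
  wv : Wv f
  odd : ∀ s x y, 0 < y → f s (-x) y = -f s x y
  inv : ∀ s x y, 0 < y → f s (-(x / (x ^ 2 + y ^ 2))) (y / (x ^ 2 + y ^ 2)) = f s x y
  per : ∀ s x y, 0 < y → f s (x + 1) y = f s x y
  dec : ∀ (j : ℕ) (S : ℝ), ∃ C : ℝ, ∀ s x y, |s| ≤ S → 1 ≤ y →
    |(dS^[j] f) s x y| ≤ C / y ∧ |dX (dS^[j] f) s x y| ≤ C / y ^ 2 ∧ |dY (dS^[j] f) s x y| ≤ C / y ^ 2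

/-- WE: the waves of the block sw: have these properties (`dS^[j] (ww g) = ww (DD^[j] g)` on `y > 0`; WS, WI,
WC, PD, BS). -/
def WE_stmt : Prop := ∀ g : ℝ → ℝ, Prof g → EW (ww g) ∧
  ∀ (j : ℕ) (s x y : ℝ), 0 < y → (dS^[j] (ww g)) s x y = ww (DD^[j] g) s x y

/-- EWC: the class is closed under time derivative, time shift, and differences (BS). -/
def EWC_stmt : Prop := (∀ f, EW f → EW (dS f)) ∧
  ∀ f, EW f → ∀ h : ℝ, EW (fun s x y => f (s + h) x y - f s x y) ∧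
    ∀ (j : ℕ) (s x y : ℝ), 0 < y →
      (dS^[j] (fun s x y => f (s + h) x y - f s x y)) s x y =
        (dS^[j] f) (s + h) x y - (dS^[j] f) s x y

/-- half of the fundamental domain -/
def Dm : Set (ℝ × ℝ) := {p | 0 < p.1 ∧ p.1 < 1 / 2 ∧ 0 < p.2 ∧ 1 < p.1 ^ 2 + p.2 ^ 2}

/-- EZ: waves vanish on the boundary of `Dm` (`x = 0`: odd; `x = 1/2`: odd and periodic; the circle:
`inv` and odd); reflection in the circle. -/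
def EZ_stmt : Prop := ∀ f, EW f → ∀ s y : ℝ, 0 < y →
  f s 0 y = 0 ∧ f s (1 / 2) y = 0 ∧ (∀ x, x ^ 2 + y ^ 2 = 1 → f s x y = 0) ∧
  ∀ x, f s (x / (x ^ 2 + y ^ 2)) (y / (x ^ 2 + y ^ 2)) = -f s x y

/-- DI: a continuous function on `y > 0` which is `O (y⁻²)` for `y ≥ 1` is integrable on `Dm`. (On `Dm`:
`y > √3/2`; the part `y ≤ 1` is in a compact set.) -/
def DI_stmt : Prop := ∀ (F : ℝ × ℝ → ℝ) (C : ℝ), ContinuousOn F {p | 0 < p.2} →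
  (∀ p : ℝ × ℝ, p ∈ Dm → 1 ≤ p.2 → |F p| ≤ C / p.2 ^ 2) → IntegrableOn F Dm

/-- DX: integral of an `x`-derivative. For fixed `y > √3/2` the slice of `Dm` is the interval
`(√(1 - y²)_+, 1/2)`; fundamental theorem; Fubini (`integral_prod_swap` or `MeasurableEquiv`). -/
def DX_stmt : Prop := ∀ F F' : ℝ × ℝ → ℝ, ContinuousOn F' {p | 0 < p.2} →
  (∀ x y : ℝ, 0 < y → HasDerivAt (fun t => F (t, y)) (F' (x, y)) x) →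
  (∀ y : ℝ, 0 < y → F (0, y) = 0 ∧ F (1 / 2, y) = 0) →
  (∀ x y : ℝ, 0 < y → x ^ 2 + y ^ 2 = 1 → F (x, y) = 0) →
  IntegrableOn F' Dm → ∫ p in Dm, F' p = 0

/-- DY: integral of a `y`-derivative. For fixed `x` the slice is `(√(1 - x²), ∞)`. -/
def DY_stmt : Prop := ∀ F F' : ℝ × ℝ → ℝ, ContinuousOn F' {p | 0 < p.2} →
  (∀ x y : ℝ, 0 < y → HasDerivAt (fun t => F (x, t)) (F' (x, y)) y) →
  (∀ x y : ℝ, 0 < y → x ^ 2 + y ^ 2 = 1 → F (x, y) = 0) →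
  (∀ x : ℝ, Filter.Tendsto (fun y => F (x, y)) Filter.atTop (nhds 0)) →
  IntegrableOn F' Dm → ∫ p in Dm, F' p = 0

/-- POI: the inequality of Poincaré on the slices (length at most `1/2`, `f = 0` at `x = 1/2`):
`f (x)² ≤ (1/2 - x) ∫ f_x²`, `∫ f² ≤ (1/8) ∫ f_x²`. Stated with the weight `y^k`, `k = 0, 2`, including the
integrability of the left side (`lintegral`, or monotone convergence). -/
def POI_stmt : Prop := ∀ (k : ℕ) (F F' : ℝ × ℝ → ℝ), ContinuousOn F {p | 0 < p.2} →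
  ContinuousOn F' {p | 0 < p.2} →
  (∀ x y : ℝ, 0 < y → HasDerivAt (fun t => F (t, y)) (F' (x, y)) x) →
  (∀ y : ℝ, 0 < y → F (1 / 2, y) = 0) →
  IntegrableOn (fun p => p.2 ^ k * F' p ^ 2) Dm →
  IntegrableOn (fun p => p.2 ^ k * F p ^ 2) Dm ∧
    ∫ p in Dm, p.2 ^ k * F p ^ 2 ≤ 1 / 8 * ∫ p in Dm, p.2 ^ k * F' p ^ 2

/-- the energy -/
noncomputable def En (f : ℝ → ℝ → ℝ → ℝ) (s : ℝ) : ℝ :=
  ∫ p in Dm, ((dS f s p.1 p.2) ^ 2 / (4 * p.2 ^ 2) + (dX f s p.1 p.2) ^ 2 + (dY f s p.1 p.2) ^ 2 -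
    (f s p.1 p.2) ^ 2 / (4 * p.2 ^ 2))

/-- ENC: conservation of energy. Differentiate under the integral (bounds locally uniform in `s` by
`dec` and compactness on `√3/2 ≤ y ≤ 1`): the derivative is
`2 ∫ [f_s f_ss / (4y²) + f_x f_xs + f_y f_ys - f f_s / (4y²)] = 2 ∫ [(f_s f_x)_x + (f_s f_y)_y] = 0`
by the wave equation, DX, DY, EZ (for `dS f`, EWC). -/
def ENC_stmt : Prop := ∀ f, EW f → ∀ s s' : ℝ, En f s = En f s'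

/-- ENL: the energy controls the gradient: `f² / (4 y²) ≤ f² / 3`, POI. -/
def ENL_stmt : Prop := ∀ f, EW f → ∀ s : ℝ,
  IntegrableOn (fun p : ℝ × ℝ => (dX f s p.1 p.2) ^ 2 + (dY f s p.1 p.2) ^ 2) Dm ∧
  ∫ p in Dm, ((dX f s p.1 p.2) ^ 2 + (dY f s p.1 p.2) ^ 2) ≤ 2 * En f s ∧
  IntegrableOn (fun p : ℝ × ℝ => (f s p.1 p.2) ^ 2) Dm ∧
  ∫ p in Dm, (f s p.1 p.2) ^ 2 ≤ En f s ∧ 0 ≤ En f s

/-- ENW: weighted bound. `∫ y² |∇f|² = ∫ f² - ∫ y² f Δf` (DX with `y² f f_x`, DY with `y² f f_y` and with `y f²`), and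
`4 y² Δf = f_ss - f`; then POI with `k = 2`. The right side is `(5/4) ∫ f² - (1/4) ∫ f f_ss`; ENL for `f`, `f_ss`. -/
def ENW_stmt : Prop := ∀ f, EW f → ∀ s : ℝ,
  IntegrableOn (fun p : ℝ × ℝ => p.2 ^ 2 * ((dX f s p.1 p.2) ^ 2 + (dY f s p.1 p.2) ^ 2)) Dm ∧
  IntegrableOn (fun p : ℝ × ℝ => p.2 ^ 2 * (f s p.1 p.2) ^ 2) Dm ∧
  ∫ p in Dm, p.2 ^ 2 * ((f s p.1 p.2) ^ 2 + (dX f s p.1 p.2) ^ 2 + (dY f s p.1 p.2) ^ 2) ≤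
    4 * (En f s + En (dS (dS f)) s)

/-- ENZ: the energy is small if the waves are small in `L²`: `∫ |∇f|² = - ∫ f Δf = (1/4) ∫ (f² - f f_ss) / y²`
(DX, DY), `y² ≥ 3/4`, Cauchy-Schwarz. -/
def ENZ_stmt : Prop := ∀ f, EW f → ∀ s δ M : ℝ, 0 < δ →
  ∫ p in Dm, (f s p.1 p.2) ^ 2 ≤ δ ^ 2 → ∫ p in Dm, (dS f s p.1 p.2) ^ 2 ≤ δ ^ 2 →
  ∫ p in Dm, (dS (dS f) s p.1 p.2) ^ 2 ≤ M ^ 2 → En f s ≤ δ ^ 2 + δ * |M|

/-! ## Local regularity -/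

/-- partial derivatives of functions of two variables -/
noncomputable def px (v : ℝ × ℝ → ℝ) (p : ℝ × ℝ) : ℝ := fderiv ℝ v p (1, 0)
/-- `∂/∂y` -/
noncomputable def py (v : ℝ × ℝ → ℝ) (p : ℝ × ℝ) : ℝ := fderiv ℝ v p (0, 1)
/-- Laplacian -/
noncomputable def lap (v : ℝ × ℝ → ℝ) (p : ℝ × ℝ) : ℝ := px (px v) p + py (py v) p

/-- L2: second derivatives of a test function: integrate by parts,
`∫ v_xx v_yy = ∫ v_xy²`. -/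
def L2_stmt : Prop := ∀ v : ℝ × ℝ → ℝ, ContDiff ℝ ∞ v → HasCompactSupport v →
  ∫ p, (px (px v) p ^ 2 + 2 * px (py v) p ^ 2 + py (py v) p ^ 2) = ∫ p, lap v p ^ 2

/-- L3: a third derivative: `∫ v_xxy v_yyy = ∫ v_xyy² ≥ 0`, so `∫ v_xxy² ≤ ∫ (∂_y Δ v)²`. -/
def L3_stmt : Prop := ∀ v : ℝ × ℝ → ℝ, ContDiff ℝ ∞ v → HasCompactSupport v →
  ∫ p, px (px (py v)) p ^ 2 ≤ ∫ p, py (lap v) p ^ 2

/-- L4: sup bound: `v_x (p) = ∫_{x' < x} ∫_{y' < y} ∂_x ∂_y v_x`, Cauchy-Schwarz on a square of side `1/2`. -/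
def L4_stmt : Prop := ∀ (v : ℝ × ℝ → ℝ) (a b : ℝ), ContDiff ℝ ∞ v → HasCompactSupport v →
  tsupport v ⊆ Set.Icc a (a + 1 / 2) ×ˢ Set.Icc b (b + 1 / 2) →
  ∀ p, px v p ^ 2 ≤ ∫ p, px (px (py v)) p ^ 2

/-- the box `[-1/4, 1/4] × [y0 - 1/4, y0 + 1/4]` -/
def Qb (y0 : ℝ) : Set (ℝ × ℝ) := Set.Icc (-(1 / 4)) (1 / 4) ×ˢ Set.Icc (y0 - 1 / 4) (y0 + 1 / 4)

/-- LR: local regularity. Two cutoff functions, `χ = 1` near the centre `(0, y0)` with support in the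
box of half size, `χ₁ = 1` on the support of `χ` with support in `Qb y0` (translates of fixed functions:
the constants do not depend on `y0`). `v = χ h`: L4, L3; `∂_y Δ (χ h)` contains `h`, `∇h`, `D² h`, `∇Δh` on
the support of `χ`; `D² h = D² (χ₁ h)` there, L2 for `χ₁ h`. (Extend `χ h` by zero for `y ≤ 0`.) -/
def LR_stmt : Prop := ∃ C : ℝ, 0 < C ∧ ∀ (h : ℝ × ℝ → ℝ) (y0 : ℝ), 1 ≤ y0 →
  ContDiffOn ℝ ∞ h {p | 0 < p.2} →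
  px h (0, y0) ^ 2 ≤ C * ∫ p in Qb y0, (h p ^ 2 + px h p ^ 2 + py h p ^ 2 + lap h p ^ 2 +
    px (lap h) p ^ 2 + py (lap h) p ^ 2)

/-- RFG: reflection in the unit circle, `σ (z) = z / |z|²`, of a set inside the circle. Change of variables
(`integral_image_eq_integral_abs_det_fderiv_smul`), `|det σ'| = |z|⁻⁴ ∈ [1, 4]`,
`h = - h ∘ σ`, `|∇h|² = |z|⁻⁴ |∇h|² ∘ σ`. The image is contained in `Dm`. -/
def RFG_stmt : Prop := ∀ (h : ℝ × ℝ → ℝ) (A : Set (ℝ × ℝ)), ContDiffOn ℝ ∞ h {p | 0 < p.2} →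
  (∀ x y : ℝ, 0 < y → h (x / (x ^ 2 + y ^ 2), y / (x ^ 2 + y ^ 2)) = -h (x, y)) → MeasurableSet A →
  (∀ p ∈ A, 0 < p.1 ∧ 0 < p.2 ∧ p.1 ^ 2 + p.2 ^ 2 < 1 ∧ 1 / 2 ≤ p.1 ^ 2 + p.2 ^ 2 ∧
    2 * p.1 < p.1 ^ 2 + p.2 ^ 2) →
  IntegrableOn (fun p => h p ^ 2 + px h p ^ 2 + py h p ^ 2) Dm →
  IntegrableOn (fun p => h p ^ 2 + px h p ^ 2 + py h p ^ 2) A ∧
  ∫ p in A, (h p ^ 2 + px h p ^ 2 + py h p ^ 2) ≤
    4 * ∫ p in Dm, (h p ^ 2 + px h p ^ 2 + py h p ^ 2)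

/-- RFQ: the box is covered by `Dm`, its reflection in the circle and the mirror image: for `y0 ≥ 1` the
points of the box with `x > 0` are in `Dm`, or inside the circle with `y ≥ 3/4`, `x ≤ 1/4` (RFG applies), or on
the circle (measure zero); weights: `y ≥ (3/4) y0` in the box and `y ≥ √3/2` in `Dm`; if `y0 ≥ 5/4` there is no
reflected part. -/
def RFQ_stmt : Prop := ∃ C : ℝ, 0 < C ∧ ∀ (h : ℝ × ℝ → ℝ), ContDiffOn ℝ ∞ h {p | 0 < p.2} →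
  (∀ x y : ℝ, 0 < y → h (-x, y) = -h (x, y)) →
  (∀ x y : ℝ, 0 < y → h (x / (x ^ 2 + y ^ 2), y / (x ^ 2 + y ^ 2)) = -h (x, y)) →
  IntegrableOn (fun p : ℝ × ℝ => p.2 ^ 2 * (h p ^ 2 + px h p ^ 2 + py h p ^ 2)) Dm → ∀ y0 : ℝ, 1 ≤ y0 →
  y0 ^ 2 * ∫ p in Qb y0, (h p ^ 2 + px h p ^ 2 + py h p ^ 2) ≤
    C * ∫ p in Dm, p.2 ^ 2 * (h p ^ 2 + px h p ^ 2 + py h p ^ 2)

/-- EB: the sup bound by the energies: LR for `h = f (s, ·)`, `Δ h = (f_ss - f) / (4 y²)` and its gradient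
(`y ≥ 3/4` in the box), RFQ for `f` and `f_ss` (EZ), ENW for `f` and `f_ss`, ENC. -/
def EB_stmt : Prop := ∃ C : ℝ, 0 < C ∧ ∀ f, EW f → ∀ s s0 y : ℝ, 1 ≤ y →
  (dX f s 0 y) ^ 2 * y ^ 2 ≤ C * ∑ j ∈ Finset.range 6, En (dS^[j] f) s0

/-! ## Recurrence -/

/-- SQ: the inequality of Poincaré on a rectangle:
`∫ (h - avg)² = (1 / (2 |R|)) ∬ |h(p) - h(p')|²`, `|h(x,y) - h(x',y')|² ≤ 2 |h(x,y) - h(x',y)|² + 2 |h(x',y) - h(x',y')|²`. -/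
def SQ_stmt : Prop := ∀ (h : ℝ × ℝ → ℝ) (a b η η' : ℝ), 0 < η → 0 < η' → 0 < b →
  ContDiffOn ℝ ∞ h {p | 0 < p.2} →
  ∫ p in Set.Icc a (a + η) ×ˢ Set.Icc b (b + η'),
      (h p - 1 / (η * η') * ∫ q in Set.Icc a (a + η) ×ˢ Set.Icc b (b + η'), h q) ^ 2 ≤
    (η ^ 2 + η' ^ 2) * ∫ p in Set.Icc a (a + η) ×ˢ Set.Icc b (b + η'), (px h p ^ 2 + py h p ^ 2)

/-- TBD: total boundedness: finitely many averages determine a function with bounded norms up to `δ`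
in `L² (Dm)`. Tail: `∫_{y > Y} h² ≤ Y⁻² ∫ y² h²`. The rectangle `(0, 1/2) × (√3/2, Y)` is covered by `Dm` and the set
`A = {0 < x < 1/2, √3/2 < y, x² + y² < 1}` (RFG: `x² - 2x + 3/4 = (x - 1/2)(x - 3/2) > 0`), divide it into `n²` equal
rectangles, SQ. The functionals are the averages over the rectangles, for which `|avg|² ≤ |R|⁻¹ ∫ h²`. -/
def TBD_stmt : Prop := ∀ (M δ : ℝ), 0 < M → 0 < δ → ∃ (N : ℕ) (K η : ℝ) (φ : Fin N → (ℝ × ℝ → ℝ) → ℝ),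
  0 < η ∧
  (∀ h : ℝ × ℝ → ℝ, ContDiffOn ℝ ∞ h {p | 0 < p.2} →
    (∀ x y : ℝ, 0 < y → h (x / (x ^ 2 + y ^ 2), y / (x ^ 2 + y ^ 2)) = -h (x, y)) →
    IntegrableOn (fun p : ℝ × ℝ => p.2 ^ 2 * (h p ^ 2 + px h p ^ 2 + py h p ^ 2)) Dm →
    ∫ p in Dm, p.2 ^ 2 * (h p ^ 2 + px h p ^ 2 + py h p ^ 2) ≤ M → ∀ i, |φ i h| ≤ K) ∧
  ∀ h h' : ℝ × ℝ → ℝ, ContDiffOn ℝ ∞ h {p | 0 < p.2} → ContDiffOn ℝ ∞ h' {p | 0 < p.2} →
    (∀ x y : ℝ, 0 < y → h (x / (x ^ 2 + y ^ 2), y / (x ^ 2 + y ^ 2)) = -h (x, y)) →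
    (∀ x y : ℝ, 0 < y → h' (x / (x ^ 2 + y ^ 2), y / (x ^ 2 + y ^ 2)) = -h' (x, y)) →
    IntegrableOn (fun p : ℝ × ℝ => p.2 ^ 2 * (h p ^ 2 + px h p ^ 2 + py h p ^ 2)) Dm →
    IntegrableOn (fun p : ℝ × ℝ => p.2 ^ 2 * (h' p ^ 2 + px h' p ^ 2 + py h' p ^ 2)) Dm →
    ∫ p in Dm, p.2 ^ 2 * (h p ^ 2 + px h p ^ 2 + py h p ^ 2) ≤ M →
    ∫ p in Dm, p.2 ^ 2 * (h' p ^ 2 + px h' p ^ 2 + py h' p ^ 2) ≤ M →
    (∀ i, |φ i h - φ i h'| ≤ η) → ∫ p in Dm, (h p - h' p) ^ 2 ≤ δ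

/-- PH: pigeonhole: a bounded sequence in `ℝ^N` comes back. -/
def PH_stmt : Prop := ∀ (N : ℕ) (K η T : ℝ) (a : ℕ → Fin N → ℝ), 0 < η → (∀ n i, |a n i| ≤ K) →
  ∃ n m : ℕ, (n : ℝ) + T ≤ m ∧ ∀ i, |a n i - a m i| ≤ η

/-- RC: near periods. The functions `dS^[j] f (n, ·)`, `j ≤ 7`, `n ∈ ℕ`, have bounded norms
(ENW, ENC). TBD, PH with all `j ≤ 7` together: `n`, `m` with `m - n ≥ T` and
`∫_Dm (dS^[j] f (m) - dS^[j] f (n))² ≤ δ²` for `j ≤ 7`. For `h = m - n` and `v = f (· + h) - f` (EWC), ENZ for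
`dS^[j] v`, `j ≤ 5`, at the time `n`; then ENC. -/
def RC_stmt : Prop := ∀ f, EW f → ∀ ε T : ℝ, 0 < ε → ∃ h : ℝ, T ≤ h ∧ ∀ s : ℝ,
  ∑ j ∈ Finset.range 6, En (dS^[j] (fun s x y => f (s + h) x y - f s x y)) s ≤ ε

/-! ## Results of the block -/

/-- EA: bounds for all times, with a constant times `B`: W7 for `DD^[j] g`, `j ≤ 7` (PD), gives
`En (dS^[j] (ww g)) (5/2) ≤ C B²` for `j ≤ 6` (`∫_Dm y⁻² < ∞`), EB for `ww g` and `ww (DD g)`, WE. For `y ≤ 1` use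
`dX w s 0 (1/y) = - y² dX w s 0 y` (reflection in the circle, EZ). -/
def EA_stmt : Prop := ∃ C : ℝ, 0 < C ∧ ∀ (g : ℝ → ℝ) (B : ℝ), Prof g → Bd 12 B g →
  ∀ s y : ℝ, 0 < y → |dX (ww g) s 0 y| ≤ C * B / y ∧ |dX (ww (DD g)) s 0 y| ≤ C * B / y ∧
    dX (ww g) s 0 (1 / y) = -y ^ 2 * dX (ww g) s 0 y

/-- ER: near periods of the wave (RC, EB for `f (· + h) - f`, WE; `y ≤ 1` by the reflection). -/
def ER_stmt : Prop := ∀ g : ℝ → ℝ, Prof g → ∀ ε T : ℝ, 0 < ε → ∃ h : ℝ, T ≤ h ∧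
  ∀ s y : ℝ, 0 < y → |dX (ww g) (s + h) 0 y - dX (ww g) s 0 y| ≤ ε / y

end SF
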