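import Mathlib
import Pool.Agent.helper68.SF.SpecE

/-!
Project SF (MP_d52931_gt), block sj: THE CONE FUNCTION. Statements of the modules with proofs.
(Rules as in SpecW; import `Pool.Agent.helper68.SF.SpecJ`.)
Notation: `q = qq l l' y = y l'² + l² / y`, so `e^{2s} = 1 / q` for `s = -½ log q`.
-/

set_option autoImplicit false

namespace SF

open MeasureTheory Set
open scoped ContDiff

/-- the integral defining the cone function, for general boundary data `f (s, y)`;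
`jj g = jf (fun s y => dX (ww g) s 0 y)` by definition -/
noncomputable def jf (f : ℝ → ℝ → ℝ) (l l' : ℝ) : ℝ :=
  1 / 2 * ∫ y in Ioi (0 : ℝ), 1 / √(qq l l' y) * f (-(1 / 2) * Real.log (qq l l' y)) y

/-- boundary data -/
structure FD (f f' : ℝ → ℝ → ℝ) (B : ℝ) : Prop where
  cont : ContinuousOn (fun p : ℝ × ℝ => f p.1 p.2) {p | 0 < p.2}
  cont' : ContinuousOn (fun p : ℝ × ℝ => f' p.1 p.2) {p | 0 < p.2}
  der : ∀ s y : ℝ, 0 < y → HasDerivAt (fun t => f t y) (f' s y) s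
  bd : ∀ s y : ℝ, 0 < y → |f s y| ≤ B / y
  bd' : ∀ s y : ℝ, 0 < y → |f' s y| ≤ B / y
  sym : ∀ s y : ℝ, 0 < y → f s (1 / y) = -y ^ 2 * f s y

/-- JFD: the data of the wave (EA, WS, BS). -/
def JFD_stmt : Prop := ∃ C : ℝ, 0 < C ∧ ∀ (g : ℝ → ℝ) (B : ℝ), Prof g → Bd 12 B g →
  FD (fun s y => dX (ww g) s 0 y) (fun s y => dX (ww (DD g)) s 0 y) (C * B)

/-- J1: convergence, bound, antisymmetry. For `y ≥ 1`: `q ≥ y l'²`, for `y ≤ 1`: `q ≥ l² / y`;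
`∫_1^∞ y^{-3/2} = 2 = ∫_0^1 y^{-1/2}`. Antisymmetry: `y ↦ 1/y` (`integral_comp_inv_Ioi` or
`integral_comp_rpow_Ioi`), `qq l l' (1/y) = qq l' l y`, `sym`. -/
def J1_stmt : Prop := ∀ (f f' : ℝ → ℝ → ℝ) (B l l' : ℝ), FD f f' B → 0 < l → 0 < l' →
  IntegrableOn (fun y => 1 / √(qq l l' y) * f (-(1 / 2) * Real.log (qq l l' y)) y) (Ioi 0) ∧
  |jf f l l'| ≤ B * (1 / l + 1 / l') ∧ jf f l' l = -jf f l l' ∧
  IntegrableOn (fun y => 1 / (√(qq l l' y) * y)) (Ioi 0) ∧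
  ∫ y in Ioi (0 : ℝ), 1 / (√(qq l l' y) * y) ≤ 2 * (1 / l + 1 / l')

/-- J2: Lipschitz bound. `∂/∂l'` of the integrand is `- q^{-3/2} y l' (f + f')`, at most
`2 B / (l' √q y)`; mean value inequality for each `y` (`q` increases in `l'`), J1. -/
def J2_stmt : Prop := ∀ (f f' : ℝ → ℝ → ℝ) (B l m m' : ℝ), FD f f' B → 0 < l → 0 < m → m ≤ m' →
  |jf f l m - jf f l m'| ≤ 2 * B * (1 / l + 1 / m) * (1 / m) * (m' - m)

/-- J3: scaling. -/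
def J3_stmt : Prop := ∀ (f : ℝ → ℝ → ℝ) (h l l' : ℝ), 0 < l → 0 < l' →
  Real.exp (-h) * jf f (Real.exp (-h) * l) (Real.exp (-h) * l') = jf (fun s y => f (s + h) y) l l'

/-- JB: the bounds for `jj` (JFD, J1, J2). -/
def JB_stmt : Prop := ∃ C : ℝ, 0 < C ∧ ∀ (g : ℝ → ℝ) (B : ℝ), Prof g → Bd 12 B g →
  ∀ l l' : ℝ, 0 < l → 0 < l' →
    |jj g l l'| ≤ C * B * (1 / l + 1 / l') ∧ jj g l' l = -jj g l l' ∧
    ∀ m : ℝ, 0 < m → m ≤ l' →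
      |jj g l m - jj g l l'| ≤ C * B * (1 / l + 1 / m) * (1 / m) * (l' - m)

/-- JN: near periods (ER, J3 and the last two items of J1; uniform in `l`, `l'`). -/
def JN_stmt : Prop := ∀ g : ℝ → ℝ, Prof g → ∀ ε T : ℝ, 0 < ε → ∃ h : ℝ, T ≤ h ∧
  ∀ l l' : ℝ, 0 < l → 0 < l' →
    |Real.exp (-h) * jj g (Real.exp (-h) * l) (Real.exp (-h) * l') - jj g l l'| ≤
      ε * (1 / l + 1 / l')

/-! ## The physical cone sum -/

/-- `∂/∂x` at `x = 0` of `𝒢 (|u|_z √q)`, `|u|_z² = |u₁ z + u₂|² / y` -/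
noncomputable def gu (g : ℝ → ℝ) (u1 u2 l l' y : ℝ) : ℝ :=
  deriv (fun x => GG g (√(((u1 * x + u2) ^ 2 + (u1 * y) ^ 2) / y * qq l l' y))) 0

/-- PHI: `Φ` is smooth with support in `[-1, 1]`: `𝒢'(r) / r` is a smooth function of `r²` supported in
`[1/3, 1]`; PI. -/
def PHI_stmt : Prop := ∀ g : ℝ → ℝ, Prof g → ContDiff ℝ ∞ (GG g) ∧ ContDiff ℝ ∞ (Ph g) ∧
  (∀ r : ℝ, |r| ≤ 1 / 2 ∨ 1 ≤ |r| → GG g r = 0) ∧ (∀ ρ : ℝ, 1 ≤ ρ → Ph g ρ = 0) ∧ Ph g 0 = 0 ∧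
  ∃ C : ℝ, 0 < C ∧ ∀ ρ : ℝ, |GG g ρ| ≤ C ∧ |deriv (GG g) ρ| ≤ C ∧ |Ph g ρ| ≤ C ∧ |deriv (Ph g) ρ| ≤ C

/-- GU: the elementary integral. With `ρ = |u₁| l + |u₂| l'`, `τ = |u₁| l' y - |u₂| l / y`:
`|u|²_{iy} q = ρ² + τ²`, and `gu = sgn (u₁ u₂) 𝒢' (√(ρ² + τ²)) √(ρ² + τ²) |u₁ u₂| / (u₁² y² + u₂²)`. Hence
`∫ |gu| ≤ sup |𝒢'| π / 2` (`𝒢' (r) r ≤ sup |𝒢'|`). The involution `y ↦ |u₂| l / (|u₁| l' y)` changes the sign of
`τ`; the mean of the two densities `dy / dτ / (u₁² y² + u₂²)` is `ρ / (2 |u₁ u₂| (ρ² + τ²))`, so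
`∫ gu dy = sgn (u₁ u₂) ρ ∫_0^∞ 𝒢' (√(ρ² + τ²)) / √(ρ² + τ²) dτ`. (If `u₁ u₂ = 0` then `gu = 0`; in Lean the sign
function is `Real.sign` with value 0 at 0.) -/
def GU_stmt : Prop := ∀ g : ℝ → ℝ, Prof g → ∃ C : ℝ, 0 < C ∧ ∀ u1 u2 l l' : ℝ, 0 < l → 0 < l' →
  IntegrableOn (gu g u1 u2 l l') (Ioi 0) ∧
  ∫ y in Ioi (0 : ℝ), gu g u1 u2 l l' y = Real.sign (u1 * u2) * Ph g (|u1| * l + |u2| * l') ∧
  ∫ y in Ioi (0 : ℝ), |gu g u1 u2 l l' y| ≤ C ∧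
  (u1 * u2 = 0 → ∀ y, 0 < y → gu g u1 u2 l l' y = 0) ∧
  (1 ≤ |u1| * l + |u2| * l' → ∀ y, 0 < y → gu g u1 u2 l l' y = 0)

/-- KU: the first kernel: `(1/√q) b0 (s, Y_v) = 𝒢 (|v|_z √q)` at `s = -½ log q`. -/
def KU_stmt : Prop := ∀ g : ℝ → ℝ, Prof g → ∀ v ∈ Pv, ∀ l l' y : ℝ, 0 < l → 0 < l' → 0 < y →
  1 / √(qq l l' y) * dX (fun s x y => b0 g s (YY v x y)) (-(1 / 2) * Real.log (qq l l' y)) 0 y =
    gu g v.1 v.2 l l' y

/-- the second part of the term of `v` -/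
noncomputable def RV (g : ℝ → ℝ) (v : ℤ × ℤ) (s x y : ℝ) : ℝ :=
  RR g s (XX v x y) (YY v x y) (XX v 0 1)

/-- JI: the interior vectors. For `l + l' ≤ 1/9`, `v.1 v.2 ≠ 0` one has
`A = (v.1² y + v.2² / y) / (25 q) ≥ 81 / 25 > 3` for all `y > 0`: RH holds near `z = i y`, so
`RV = Σ_m chi m ½ [sign (X_v (i) + m/5) - sign (X_v (z) + m/5)] b0 (s, Y_u)` with `u = 5 cpl v + m v` (MH), the signs
being those of `ip u v` (MG) and locally constant where `b0 ≠ 0`. `ip u v 0 y = u.1 v.1 y² + u.2 v.2`: a change of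
sign between `i` and `i y` needs `u.1 v.1` and `u.2 v.2` of opposite signs, hence `|u.1 v.2| + |u.2 v.1| = 5`: all
entries are at most 5. The integral of each term is at most that of `|gu|` (KU, GU). -/
def JI_stmt : Prop := ∀ g : ℝ → ℝ, Prof g → ∃ C : ℝ, ∀ l l' : ℝ, 0 < l → 0 < l' → l + l' ≤ 1 / 9 →
  ∀ v ∈ Pv, v.1 ≠ 0 → v.2 ≠ 0 →
    IntegrableOn (fun y => 1 / √(qq l l' y) * dX (RV g v) (-(1 / 2) * Real.log (qq l l' y)) 0 y)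
      (Ioi 0) ∧
    |∫ y in Ioi (0 : ℝ), 1 / √(qq l l' y) * dX (RV g v) (-(1 / 2) * Real.log (qq l l' y)) 0 y| ≤ C ∧
    (5 < |v.1| ∨ 5 < |v.2| → ∀ y, 0 < y → dX (RV g v) (-(1 / 2) * Real.log (qq l l' y)) 0 y = 0)

/-- JE: the end cusps. `v = (0, ± 1)`: `RV g v s x y = RR g s x y 0` (MS, RO). If `75 (y² l'² + l²) ≤ 1` then
`A = 1 / (25 q y) ≥ 3` and RH gives `RR = 0` for `x` near 0. Otherwise `y > c0 / l'` with
`c0² = 1/75 - 1/81`, and `A < 3`, so RB gives `|dX ℛ| ≤ 256 C e^s / y²`, `e^s = 1/√q ≤ 1 / (√y l')`: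
`∫_{c0/l'}^∞ l'^{-2} y^{-3} dy = 1 / (2 c0²)`. `v = (± 1, 0)`: `RV g v s x y = RR g s (-x/r²) (y/r²) 0`,
substitute `y ↦ 1/y`. Measurability from RA. -/
def JE_stmt : Prop := ∀ g : ℝ → ℝ, Prof g → ∃ C : ℝ, ∀ l l' : ℝ, 0 < l → 0 < l' → l + l' ≤ 1 / 9 →
  ∀ v ∈ Pv, (v.1 = 0 ∨ v.2 = 0) →
    IntegrableOn (fun y => 1 / √(qq l l' y) * dX (RV g v) (-(1 / 2) * Real.log (qq l l' y)) 0 y)
      (Ioi 0) ∧
    |∫ y in Ioi (0 : ℝ), 1 / √(qq l l' y) * dX (RV g v) (-(1 / 2) * Real.log (qq l l' y)) 0 y| ≤ C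

/-! ## Words -/

/-- BW: bases and mediants of words. -/
def BW_stmt : Prop :=
  (∀ w : List Bool, 0 ≤ (bw w).1.1 ∧ 0 ≤ (bw w).1.2 ∧ 0 ≤ (bw w).2.1 ∧ 0 ≤ (bw w).2.2 ∧
    dt (bw w).1 (bw w).2 = 1 ∧ 0 < (md w).1 ∧ 0 < (md w).2) ∧
  (∀ w w' : List Bool, md (w ++ w') = (md w').1 • (bw w).1 + (md w').2 • (bw w).2) ∧
  BijOn md univ {v | v ∈ Pv ∧ 0 < v.1 ∧ 0 < v.2}

/-- BR: the weight depends only on the last four letters. Let `w = w0 ++ s`, `|s| = 4`, `(U, V) = bw w0`,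
`(x1, x2) = (bw s).1`, `(m1, m2) = md s`: the vector `X = x1 U + x2 V` is a complement of `M = m1 U + m2 V = md w`,
so `psi (XX M 0 1) = psi (ip X M / ip M M)` at `i`, and `(X₁ M₁ + X₂ M₂) / (M₁² + M₂²)` is strictly between
`X₂ / M₂` and `X₁ / M₁`, both in `[x2 / m2, x1 / m1]`. For each of the 16 words `s` this interval is in the
closure of one component of the complement of the breakpoints, where `psi = -psi0 s`
(TTTT 0 1/5, TTTF 1/2 4/7, TTFT 1/3 3/8, TTFF 2/3 5/7, TFTT 1/4 2/7, TFTF 3/5 5/8, TFFT 2/5 3/7, TFFF 3/4 4/5,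
FTTT 1/5 1/4, FTTF 4/7 3/5, FTFT 3/8 2/5, FTFF 5/7 3/4, FFTT 2/7 1/3, FFTF 5/8 2/3, FFFT 3/7 1/2, FFFF 4/5 1). -/
def BR_stmt : Prop := (∀ w : List Bool, 4 ≤ w.length → pw w = -psi0 w) ∧
  (∀ w : List Bool, |pw w| ≤ 1 ∧ |psi0 w| ≤ 1) ∧
  ∀ w w' : List Bool, 4 ≤ w'.length → psi0 (w ++ w') = psi0 w' ∧ pw (w ++ w') = pw w'

/-- JS: the main sum. `Σ_v psi (XX v 0 1) ∫ gu_v = Σ_v psi (XX v 0 1) sign (v.1 v.2) Φ (|v.1| l + |v.2| l')`: the four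
vectors `(± α, ± β)` give the same contribution (`psi` is odd and periodic, MS at the base point), words
are the vectors with positive entries (BW). -/
def JS_stmt : Prop := ∀ g : ℝ → ℝ, Prof g → ∀ l l' : ℝ, 0 < l → 0 < l' →
  {w : List Bool | Ph g ((md w).1 * l + (md w).2 * l') ≠ 0}.Finite ∧
  ∑ᶠ v ∈ Pv, psi (XX v 0 1) * (Real.sign ((v.1 : ℝ) * v.2) * Ph g (|(v.1 : ℝ)| * l + |(v.2 : ℝ)| * l')) =
    4 * jp g l l'

/-- J4: for small lengths the cone function is the physical one up to a bounded error. WS: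
`dX (ww g) = ½ Σ_v dX (FF g v)` and `FF g v = psi (XX v 0 1) b0 (Y_v) + RV g v`. KU, GU: the first part gives
`¼ Σ_v psi ∫ gu_v`, where only `v` with `|v.1| l + |v.2| l' < 1` contribute; JS. The second part: only finitely
many `v` (entries at most 5) contribute, JI, JE. -/
def J4_stmt : Prop := ∀ g : ℝ → ℝ, Prof g → ∃ C : ℝ, ∀ l l' : ℝ, 0 < l → 0 < l' → l + l' ≤ 1 / 9 →
  |jj g l l' - jp g l l'| ≤ C

/-- J5A: the three-term relation of the physical sum: words `[]`, `true :: w`, `false :: w`;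
`pw (true :: w) = pw w` for `|w| ≥ 4` (BR), there are 15 shorter words. -/
def J5A_stmt : Prop := ∀ g : ℝ → ℝ, Prof g → ∃ C : ℝ, ∀ l l' : ℝ, 0 < l → 0 < l' →
  |jp g l l' - (jp g l (l + l') + jp g (l + l') l')| ≤ C

/-- J5: the three-term relation. For a near period `h` (JN with `ε`, and `h` large) the scaled relation
J5A with J4 gives `|jj g l l' - jj g l (l+l') - jj g (l+l') l'| ≤ ε (...) + 4 C e^{-h}`. -/
def J5_stmt : Prop := ∀ g : ℝ → ℝ, Prof g → ∀ l l' : ℝ, 0 < l → 0 < l' →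
  jj g l l' = jj g l (l + l') + jj g (l + l') l'

end SF
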