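import Mathlib
import Pool.Agent.helper68.SF.SpecJ

/-!
Project SF (MP_d52931_gt), block ss: THE TREE OF A METRIC. Statements of the modules with proofs.
(Rules as in SpecW; import `Pool.Agent.helper68.SF.SpecS`.)
For a node `Q = desc w P` write `L = len Q.1`, `L' = len Q.2.1`, `M = len Q.2.2` (length of the mediant).
-/

set_option autoImplicit false

namespace SF

open Pool.Agent.helper72.Sq MeasureTheory Set

/-- `L + L'` -/
noncomputable def LL (Q : Tri) : ℝ := len Q.1 + len Q.2.1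

/-- LB: all lengths are bounded below (finitely many nodes have `M ≤ 1`; all traces are `> 2`), and the
nodes with `LL ≤ T` (or with mediant `≤ T`) are `O ((1 + T)²)` in number. From `AM.XZ_stmt`, `AM.XB_stmt`,
`AM.TOT_stmt`. -/
def LB_stmt : Prop := ∀ P : Tri, Adm P → ∃ c C : ℝ, 0 < c ∧ 0 < C ∧
  (∀ w : List Bool, c ≤ len (desc w P).1 ∧ c ≤ len (desc w P).2.1 ∧ c ≤ len (desc w P).2.2) ∧
  (∀ w : List Bool, |LL (desc w P) - len (desc w P).2.2| ≤ C) ∧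
  ∀ T : ℝ, 0 ≤ T → {w : List Bool | LL (desc w P) ≤ T}.Finite ∧
    ({w : List Bool | LL (desc w P) ≤ T}.ncard : ℝ) ≤ C * (1 + T) ^ 2 ∧
    {w : List Bool | len (desc w P).2.2 ≤ T}.Finite ∧
    ({w : List Bool | len (desc w P).2.2 ≤ T}.ncard : ℝ) ≤ C * (1 + T) ^ 2

/-- GAP: the defect of additivity is exponentially small: for a growing node with traces `x, y, z`,
`x = 2 cosh (L/2)` etc., `z` is the larger root of `z² - x y z + x² + y² + k = 0`, the other root is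
`z' = (x² + y² + k) / z`, and `2 cosh ((L+L')/2) - z = z' - 2 cosh ((L-L')/2) = O (e^{-(L+L')/2})`. Finitely many nodes
are not growing. (Compare `AM.GE`, `AM.GF`, `Gr.len_z_le`, `AM.XB`.) -/
def GAP_stmt : Prop := ∀ P : Tri, Adm P → ∃ C : ℝ, 0 < C ∧ ∀ w : List Bool,
  |LL (desc w P) - len (desc w P).2.2| ≤ C * Real.exp (-LL (desc w P))

/-- SUM: summability (LB, sum over the shells `n ≤ LL < n + 1`). -/
def SUM_stmt : Prop := ∀ P : Tri, Adm P →
  Summable (fun w : List Bool => Real.exp (-LL (desc w P) / 2))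

/-- GJB: the contribution of a node: by J5
`GJ = [jj (l, m) - jj (l, l + l')] + [jj (m, l') - jj (l + l', l')]`, JB (Lipschitz, antisymmetry), LB, GAP;
`l = L / R` etc. -/
def GJB_stmt : Prop := ∀ P : Tri, Adm P → ∃ C : ℝ, 0 < C ∧ ∀ (g : ℝ → ℝ) (B R : ℝ) (w : List Bool),
  Prof g → Bd 12 B g → 0 < R → |GJ g R (desc w P)| ≤ C * B * R * Real.exp (-LL (desc w P))

/-- SN: the wave sum comes back: term by term JN (uniform in `l`, `l'`, LB), dominated by GJB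
(also for `e^{-h} GJ g (R e^h)`: the same bound), SUM: finite set plus tail. Both cones (`Adm.Tw`). -/
def SN_stmt : Prop := ∀ (g : ℝ → ℝ) (P : Tri), Prof g → Adm P → ∀ R ε T : ℝ, 0 < R → 0 < ε →
  ∃ h : ℝ, T ≤ h ∧ |Real.exp (-h) * Sw g P (R * Real.exp h) - Sw g P R| ≤ ε

/-- TEL: telescoping over the tree. -/
def TEL_stmt : Prop := ∀ F : List Bool → ℝ, {w | F w ≠ 0}.Finite →
  {w | F (w ++ [true]) + F (w ++ [false]) - F w ≠ 0}.Finite ∧
  ∑ᶠ w : List Bool, (F (w ++ [true]) + F (w ++ [false]) - F w) = -F []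

/-- the physical cone sum with the weights below the node `w` -/
noncomputable def jpw (g : ℝ → ℝ) (w : List Bool) (l l' : ℝ) : ℝ :=
  ∑ᶠ w' : List Bool, pw (w ++ w') * Ph g ((md w').1 * l + (md w').2 * l')

/-- JW: properties: exact recursion (`md (true :: w')`, `w ++ true :: w' = (w ++ [true]) ++ w'`), comparison with
`jp` (BR: only the 15 words with at most 3 letters differ), Lipschitz bound (the sum has at most
`1 / (l m)` terms with `α l + β m ≤ 1`, `β ≤ 1 / m`), vanishing for `l + l' ≥ 1`. -/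
def JW_stmt : Prop := ∀ g : ℝ → ℝ, Prof g → ∃ C : ℝ, 0 < C ∧ ∀ (w : List Bool) (l l' : ℝ),
  0 < l → 0 < l' →
    jpw g w l l' = pw w * Ph g (l + l') + jpw g (w ++ [true]) l (l + l') +
      jpw g (w ++ [false]) (l + l') l' ∧
    |jpw g w l l' - jp g l l'| ≤ C ∧
    (1 ≤ l + l' → jpw g w l l' = 0) ∧
    (∀ m : ℝ, 0 < m → |jpw g w l l' - jpw g w l m| ≤ C * |l' - m| * (1 + 1 / l + 1 / l' + 1 / m) ^ 3) ∧
    ∀ m : ℝ, 0 < m → |jpw g w l l' - jpw g w m l'| ≤ C * |l - m| * (1 + 1 / l + 1 / l' + 1 / m) ^ 3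

/-- SPW: comparison of the physical sum and the wave sum. For each cone, with `F w = jpw g w (L/R) (L'/R)`
(finite support by LB, JW), TEL gives `Σ_w pw w Φ (M/R) = F [] + Σ_w G w` with
`G w = pw w [Φ (m) - Φ (l + l')] + [jpw (wT) l m - jpw (wT) l (l+l')] + [jpw (wF) m l' - jpw (wF) (l+l') l']`
(JW recursion), and `G w - GJ w` is, by the first form
`G w = pw w Φ (m) + jpw (wT) l m + jpw (wF) m l' - jpw w l l'`, at most `C_g` if `l + m, m + l', l + l' ≤ 1/9` (J4, JW).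
Use this for the `O (T²)` nodes with `LL ≤ T = 8 log R` (LB), `R ≥ R0`; for the other nodes
`|G w| ≤ C R^4 e^{-LL}`, `|GJ w| ≤ C R e^{-LL}` (JW, GAP, PHI, GJB), and `e^{-LL} ≤ R^{-4} e^{-LL/2}` (SUM). The terms
`F []` of the two cones are compared with `jj (l, l') + jj (l', l) = 0` (J4). For `2 ≤ R ≤ R0` all is bounded (GJB,
LB). -/
def SPW_stmt : Prop := ∀ (g : ℝ → ℝ) (P : Tri), Prof g → Adm P → ∃ C : ℝ, ∀ R : ℝ, 2 ≤ R →
  |Sp g P R - Sw g P R| ≤ C * (1 + Real.log R) ^ 2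

/-- the mass -/
noncomputable def Ms (g : ℝ → ℝ) : ℝ := ∫ ρ in (0 : ℝ)..1, ρ * |deriv (Ph g) ρ|

/-- PS: partial summation. The weighted count with the weights `pw` is `-SC` up to `O (1)` (BR), so it is
`-c t² + O (t)` for ALL `t > 0` (it vanishes for `t` below the shortest length), with constants depending
only on `P`; `Φ (M / R) = -∫_{M/R}^1 Φ'`, so `Sp = -∫_0^1 S'(R ρ) Φ'(ρ) dρ`. -/
def PS_stmt : Prop := ∀ P : Tri, Adm P → QL P → ∃ c C : ℝ, ∀ (g : ℝ → ℝ) (R : ℝ), Prof g → 1 ≤ R →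
  |Sp g P R - c * R ^ 2 * ∫ ρ in (0 : ℝ)..1, ρ ^ 2 * deriv (Ph g) ρ| ≤ C * R * Ms g

/-- NZ: a profile with nonzero second moment: `∫ ρ² Φ' = -2 ∫ ρ Φ = π ∫ r 𝒢 (r) dr` (Fubini,
`∫_0^r ρ² (r² - ρ²)^{-1/2} dρ = π r² / 4`), positive for a bump function `g ≥ 0`. -/
def NZ_stmt : Prop := ∃ g : ℝ → ℝ, Prof g ∧ ∫ ρ in (0 : ℝ)..1, ρ ^ 2 * deriv (Ph g) ρ ≠ 0

/-- SZ: the law bounds the wave sum of every profile, with one constant. By SPW and SN the numbers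
`e^{-h} Sp g P (R e^h)` are bounded along near periods `h → ∞` (for the profile of NZ), so `c = 0` in PS; then
`|e^{-h} Sp g P (R e^h)| ≤ C R Ms g` and `h → ∞` along near periods of `g` (SN, SPW). -/
def SZ_stmt : Prop := ∀ P : Tri, Adm P → QL P → ∃ C : ℝ, ∀ (g : ℝ → ℝ) (R : ℝ), Prof g → 1 ≤ R →
  |Sw g P R| ≤ C * R * Ms g

/-! ## Assembly -/

/-- AZ: the asymptotics (block sa:). -/
def AZ_stmt : Prop := ∃ (P : Tri) (R : ℝ), Adm P ∧ 1 ≤ R ∧ ∀ C : ℝ, ∃ g : ℝ → ℝ, Prof g ∧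
  C * Ms g < |Sw g P R|

/-- TZ: the topology (block st:). -/
def TZ_stmt : Prop := ∀ ρ : F2 →* Matrix.SpecialLinearGroup (Fin 2) ℝ, Adm (trTri ρ (ga, gb)) →
  ((∀ R, {x : orb (ga ^ 4 * gb ^ 3) | cLen ρ x ≤ R}.Finite) ∧
    ∀ R, {x : orb (ga ^ 4 * (gb ^ 3)⁻¹) | cLen ρ x ≤ R}.Finite) ∧
  (WL ρ (ga ^ 4 * gb ^ 3) → WL ρ (ga ^ 4 * (gb ^ 3)⁻¹) → QL (trTri ρ (ga, gb)))

/-- RHO: every admissible triple is the trace triple of a homomorphism: `A = (x, -1; 1, 0)`,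
`B = (0, q; -1/q, y)`, `q + 1/q = z` (`FreeGroup.lift` or the universal property of `F2`). -/
def RHO_stmt : Prop := ∀ P : Tri, Adm P →
  ∃ ρ : F2 →* Matrix.SpecialLinearGroup (Fin 2) ℝ, trTri ρ (ga, gb) = P

/-- FN: the final theorem of the project. (SZ, AZ, TZ, RHO; `exists_enum` of helper72 for the enumeration.)
The weak law is not required to have `u > 0`. -/
def FN_stmt : Prop := ∃ (t : ℝ × ℝ × ℝ) (ρ : F2 →* Matrix.SpecialLinearGroup (Fin 2) ℝ) (g : F2),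
  t ∈ Fricke ∧ tr (ρ ga) = t.1 ∧ tr (ρ gb) = t.2.1 ∧ tr (ρ (ga * gb)) = t.2.2 ∧
  (g = ga ^ 4 * gb ^ 3 ∨ g = ga ^ 4 * (gb ^ 3)⁻¹) ∧
  (∃ e : ℕ ≃ orb g, Monotone (fun k => cLen ρ (e k))) ∧
  ∀ e : ℕ ≃ orb g, Monotone (fun k => cLen ρ (e k)) →
    ∀ u v C : ℝ, ∃ k : ℕ, C < |u * √((k : ℝ) + 1) + v - cLen ρ (e k)|

end SF
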