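import Mathlib
import Pool.Agent.helper1.SF.AZZ
import Pool.Agent.helper1.SF.C5B
import Pool.Agent.helper1.SF.FDX
import Pool.Agent.helper1.SF.PKF
import Pool.Agent.helper1.SF.PKJ
import Pool.Agent.helper11.SF.DX
import Pool.Agent.helper11.SF.JW
import Pool.Agent.helper11.SF.L2
import Pool.Agent.helper11.SF.RFG
import Pool.Agent.helper13.SF.WI
import Pool.Agent.helper15.SF.J5A
import Pool.Agent.helper16.SF.W7A
import Pool.Agent.helper17.SF.JI
import Pool.Agent.helper18.SF.DY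
import Pool.Agent.helper18.SF.USM
import Pool.Agent.helper19.SF.ENL
import Pool.Agent.helper2.SF.TRB
import Pool.Agent.helper20.SF.GJR
import Pool.Agent.helper20.SF.RJ
import Pool.Agent.helper21.SF.KDB
import Pool.Agent.helper21.SF.L3
import Pool.Agent.helper21.SF.RC
import Pool.Agent.helper22.SF.EA
import Pool.Agent.helper22.SF.NZ
import Pool.Agent.helper22.SF.SUM
import Pool.Agent.helper23.SF.MMT
import Pool.Agent.helper23.SF.MSB
import Pool.Agent.helper24.SF.GU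
import Pool.Agent.helper25.SF.EB
import Pool.Agent.helper25.SF.EDA
import Pool.Agent.helper25.SF.EZ
import Pool.Agent.helper25.SF.JDM
import Pool.Agent.helper25.SF.LF
import Pool.Agent.helper25.SF.PI
import Pool.Agent.helper25.SF.SZ
import Pool.Agent.helper26.SF.RHO
import Pool.Agent.helper27.SF.INF
import Pool.Agent.helper27.SF.PKC
import Pool.Agent.helper27.SF.W7
import Pool.Agent.helper28.SF.FN2
import Pool.Agent.helper28.SF.KB
import Pool.Agent.helper29.SF.KDA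
import Pool.Agent.helper29.SF.SPW
import Pool.Agent.helper3.SF.TRS
import Pool.Agent.helper30.SF.MH
import Pool.Agent.helper31.SF.KU
import Pool.Agent.helper31.SF.LNB
import Pool.Agent.helper31.SF.MS
import Pool.Agent.helper31.SF.NDB
import Pool.Agent.helper31.SF.RA
import Pool.Agent.helper32.SF.NB
import Pool.Agent.helper32.SF.PKA
import Pool.Agent.helper33.SF.PS
import Pool.Agent.helper34.SF.JS
import Pool.Agent.helper34.SF.LNA
import Pool.Agent.helper34.SF.PKD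
import Pool.Agent.helper34.SF.PKE
import Pool.Agent.helper34.SF.PSA
import Pool.Agent.helper34.SF.WC
import Pool.Agent.helper38.SF.JTW
import Pool.Agent.helper38.SF.KC
import Pool.Agent.helper38.SF.LB
import Pool.Agent.helper41.SF.EXK
import Pool.Agent.helper43.SF.EWC
import Pool.Agent.helper43.SF.HAD
import Pool.Agent.helper43.SF.J1
import Pool.Agent.helper43.SF.NO
import Pool.Agent.helper43.SF.PSC
import Pool.Agent.helper43.SF.WE
import Pool.Agent.helper48.SF.GAP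
import Pool.Agent.helper49.SF.MSA
import Pool.Agent.helper50.SF.RB
import Pool.Agent.helper51.SF.C5A
import Pool.Agent.helper51.SF.PAIR
import Pool.Agent.helper51.SF.PKB
import Pool.Agent.helper52.SF.FV
import Pool.Agent.helper52.SF.JB
import Pool.Agent.helper52.SF.JFD
import Pool.Agent.helper52.SF.K1
import Pool.Agent.helper52.SF.POI
import Pool.Agent.helper53.SF.K01
import Pool.Agent.helper53.SF.L0B
import Pool.Agent.helper53.SF.L0N
import Pool.Agent.helper53.SF.LSM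
import Pool.Agent.helper53.SF.RH
import Pool.Agent.helper53.SF.VSN
import Pool.Agent.helper54.SF.WS
import Pool.Agent.helper57.SF.BCH
import Pool.Agent.helper59.SF.J4
import Pool.Agent.helper59.SF.NS
import Pool.Agent.helper59.SF.PD
import Pool.Agent.helper59.SF.RPB
import Pool.Agent.helper60.SF.ER
import Pool.Agent.helper61.SF.GJB
import Pool.Agent.helper63.SF.ENW
import Pool.Agent.helper63.SF.JN
import Pool.Agent.helper63.SF.L4
import Pool.Agent.helper64.SF.J2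
import Pool.Agent.helper64.SF.MG
import Pool.Agent.helper65.SF.EDB
import Pool.Agent.helper65.SF.KMM
import Pool.Agent.helper65.SF.MOB
import Pool.Agent.helper65.SF.NOD
import Pool.Agent.helper65.SF.TEL
import Pool.Agent.helper65.SF.VSM
import Pool.Agent.helper70.SF.SCH
import Pool.Agent.helper72.SF.GJF
import Pool.Agent.helper72.SF.MIR
import Pool.Agent.helper68.SF.TZ
import Pool.Agent.helper73.SF.RO
import Pool.Agent.helper73.SF.TRI
import Pool.Agent.helper75.SF.PH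
import Pool.Agent.helper76.SF.KFA
import Pool.Agent.helper76.SF.LR
import Pool.Agent.helper77.SF.BS
import Pool.Agent.helper77.SF.J3
import Pool.Agent.helper79.SF.SQ
import Pool.Agent.helper8.SF.ZPA
import Pool.Agent.helper82.SF.JEA
import Pool.Agent.helper82.SF.RFQ
import Pool.Agent.helper84.SF.MSC
import Pool.Agent.helper87.SF.JE
import Pool.Agent.helper9.SF.K0
import Pool.Agent.helper91.SF.ENZ
import Pool.Agent.helper91.SF.ZSB
import Pool.Agent.helper92.SF.B01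
import Pool.Agent.helper92.SF.BW
import Pool.Agent.helper92.SF.DI
import Pool.Agent.helper92.SF.J5
import Pool.Agent.helper93.SF.ENC
import Pool.Agent.helper93.SF.SN
import Pool.Agent.helper93.SF.ZSA
import Pool.Agent.helper95.SF.PHI
import Pool.Agent.helper97.SF.PJ
import Pool.Agent.helper98.SF.BR
import Pool.Agent.helper98.SF.PSB
import Pool.Agent.helper99.SF.E1I
import Pool.Agent.helper99.SF.GJC
import Pool.Agent.helper99.SF.N3
import Pool.Agent.helper99.SF.TBD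
import Pool.Agent.helper68.AM.FinalX

/-!
Project SF (MP_d52931_gt): assembly of all modules.
-/

set_option autoImplicit false

namespace SF

theorem t_BS : BS_stmt := BS
theorem t_MOB : MOB_stmt := MOB t_BS
theorem t_PI : PI_stmt := PI
theorem t_HAD : HAD_stmt := HAD t_PI
theorem t_PSA : PSA_stmt := PSA
theorem t_PSC : PSC_stmt := PSC
theorem t_PSB : PSB_stmt := PSB t_PSA t_PSC
theorem t_PD : PD_stmt := PD
theorem t_NS : NS_stmt := NS t_PI
theorem t_NO : NO_stmt := NO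
theorem t_N3 : N3_stmt := N3
theorem t_NB : NB_stmt := NB
theorem t_K0 : K0_stmt := K0 t_PI t_PD
theorem t_K01 : K01_stmt := K01
theorem t_K1 : K1_stmt := K1 t_K0 t_K01 t_MOB t_N3 t_NO
theorem t_B01 : B01_stmt := B01 t_MOB
theorem t_KB : KB_stmt := KB t_NS t_NB
theorem t_C5A : C5A_stmt := C5A
theorem t_KC : KC_stmt := KC t_NS t_NO t_HAD
theorem t_RA : RA_stmt := RA t_KC t_PSA t_PSB t_K1 t_B01 t_BS
theorem t_RO : RO_stmt := RO
theorem t_RH : RH_stmt := RH t_K1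
theorem t_RJ : RJ_stmt := RJ t_RA
theorem t_PJ : PJ_stmt := PJ
theorem t_RB : RB_stmt := RB t_BS t_K1 t_B01 t_KB t_C5A t_RA
theorem t_MG : MG_stmt := MG
theorem t_MH : MH_stmt := MH t_MG t_B01
theorem t_MS : MS_stmt := MS
theorem t_FV : FV_stmt := FV
theorem t_SCH : SCH_stmt := SCH
theorem t_LF : LF_stmt := LF t_RH t_MG t_MH t_FV t_SCH
theorem t_PAIR : PAIR_stmt := PAIR
theorem t_BCH : BCH_stmt := BCH t_PJ t_RJ t_PAIR t_MG t_MH t_SCH t_FV t_LF
theorem t_WS : WS_stmt := WS t_LF t_RA t_B01 t_MOB t_MG t_MS t_PJ t_RO t_BS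
theorem t_WI : WI_stmt := WI t_MS t_PJ t_RO t_BCH
theorem t_WC : WC_stmt := WC t_RB t_RO t_RH t_MH t_MG t_WI t_WS t_BS
theorem t_W7A : W7A_stmt := W7A t_RH t_MH t_MG t_FV t_SCH t_PJ
theorem t_W7 : W7_stmt := W7 t_W7A t_RB t_WS t_BS t_RA t_B01 t_MOB t_MG t_LF
theorem t_WE : WE_stmt := WE t_WS t_WI t_WC t_PD
theorem t_EWC : EWC_stmt := EWC t_BS
theorem t_EZ : EZ_stmt := EZ
theorem t_DI : DI_stmt := DI
theorem t_DX : DX_stmt := DX
theorem t_DY : DY_stmt := DY
theorem t_POI : POI_stmt := POI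
theorem t_ENC : ENC_stmt := ENC t_BS t_EWC t_EZ t_DI t_DX t_DY
theorem t_ENL : ENL_stmt := ENL t_BS t_DI t_EZ t_POI
theorem t_ENW : ENW_stmt := ENW t_BS t_DI t_DX t_DY t_EZ t_POI t_ENL t_EWC
theorem t_ENZ : ENZ_stmt := ENZ t_BS t_EZ t_DI t_DX t_DY
theorem t_L2 : L2_stmt := L2
theorem t_L3 : L3_stmt := L3 t_L2
theorem t_L4 : L4_stmt := L4
theorem t_LR : LR_stmt := LR t_L2 t_L3 t_L4
theorem t_RFG : RFG_stmt := RFG
theorem t_RFQ : RFQ_stmt := RFQ t_RFG
theorem t_EB : EB_stmt := EB t_BS t_EWC t_EZ t_ENC t_ENL t_ENW t_LR t_RFQ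
theorem t_SQ : SQ_stmt := SQ
theorem t_TBD : TBD_stmt := TBD t_SQ t_RFG
theorem t_PH : PH_stmt := PH
theorem t_RC : RC_stmt := RC t_TBD t_PH t_ENW t_ENC t_ENZ t_EWC t_EZ
theorem t_EA : EA_stmt := EA t_W7 t_EB t_WE t_PD t_DI
theorem t_ER : ER_stmt := ER t_RC t_EB t_WE t_EZ t_EWC
theorem t_JFD : JFD_stmt := JFD t_EA t_WS t_BS t_PD
theorem t_J1 : J1_stmt := J1
theorem t_J2 : J2_stmt := J2 t_J1
theorem t_J3 : J3_stmt := J3
theorem t_JB : JB_stmt := JB t_JFD t_J1 t_J2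
theorem t_JN : JN_stmt := JN t_ER t_J3 t_J1 t_JFD
theorem t_PHI : PHI_stmt := PHI t_PI
theorem t_GU : GU_stmt := GU t_PHI
theorem t_KU : KU_stmt := KU
theorem t_JI : JI_stmt := JI t_RH t_MH t_MG t_KU t_GU
theorem t_JE : JE_stmt := JE t_RA t_RH t_RB t_RO
theorem t_BW : BW_stmt := BW
theorem t_BR : BR_stmt := BR t_BW t_PJ t_MG
theorem t_JS : JS_stmt := JS t_BW t_PJ t_MS t_PHI
theorem t_J4 : J4_stmt := J4 t_RA t_WS t_KU t_GU t_JS t_JI t_JE
theorem t_J5A : J5A_stmt := J5A t_BR t_PHI t_JS t_BW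
theorem t_J5 : J5_stmt := J5 t_J4 t_J5A t_JN
theorem t_LB : LB_stmt := LB AM.XZ AM.XB AM.tot
theorem t_GAP : GAP_stmt := GAP
theorem t_SUM : SUM_stmt := SUM t_LB
theorem t_GJB : GJB_stmt := GJB t_J5 t_JB t_LB t_GAP
theorem t_SN : SN_stmt := SN t_JN t_LB t_GJB t_SUM
theorem t_TEL : TEL_stmt := TEL
theorem t_JW : JW_stmt := JW t_PHI t_BW t_BR t_JS
theorem t_SPW : SPW_stmt := SPW t_TEL t_JW t_J4 t_JB t_GJB t_LB t_GAP t_SUM t_PHI
theorem t_PS : PS_stmt := PS t_BR t_LB t_PHI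
theorem t_NZ : NZ_stmt := NZ t_PHI
theorem t_SZ : SZ_stmt := SZ t_SPW t_SN t_PS t_NZ
theorem t_TZ : TZ_stmt := TZ
theorem t_RHO : RHO_stmt := RHO
theorem t_MIR : MIR_stmt := MIR
theorem t_INF : INF_stmt := INF
theorem t_PKA : PKA_stmt := PKA
theorem t_PKB : PKB_stmt := PKB t_PKA
theorem t_PKC : PKC_stmt := PKC t_PKA
theorem t_PKD : PKD_stmt := PKD t_PKA
theorem t_MSA : MSA_stmt := MSA
theorem t_MSC : MSC_stmt := MSC
theorem t_MSB : MSB_stmt := MSB t_PKA t_MSA t_MSC t_PHI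
theorem t_LNA : LNA_stmt := LNA t_RA t_LF
theorem t_LNB : LNB_stmt := LNB t_LNA t_WS t_JFD t_J1
theorem t_MMT : MMT_stmt := MMT
theorem t_KFA : KFA_stmt := KFA
theorem t_KDA : KDA_stmt := KDA t_KFA t_MMT t_NS t_NO
theorem t_KDB : KDB_stmt := KDB t_NS t_KDA
theorem t_C5B : C5B_stmt := C5B
theorem t_FDX : FDX_stmt := FDX t_RA t_BS t_MG t_B01 t_K1
theorem t_E1I : E1I_stmt := E1I t_PI t_K01 t_K0 t_K1
theorem t_RPB : RPB_stmt := RPB t_FDX t_E1I t_KDB t_C5B t_MG t_K1 t_BS t_MMT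
theorem t_JDM : JDM_stmt := JDM t_WS t_RPB
theorem t_ZPA : ZPA_stmt := ZPA
theorem t_ZSB : ZSB_stmt := ZSB t_ZPA
theorem t_ZSA : ZSA_stmt := ZSA t_ZSB
theorem t_JTW : JTW_stmt := JTW t_JFD t_J1
theorem t_EXK : EXK_stmt := EXK
theorem t_JEA : JEA_stmt := JEA t_JTW t_JDM t_ZSA t_EXK t_WS t_BS
theorem t_KMM : KMM_stmt := KMM
theorem t_USM : USM_stmt := USM
theorem t_VSM : VSM_stmt := VSM
theorem t_L0B : L0B_stmt := L0B
theorem t_L0N : L0N_stmt := L0N t_L0B
theorem t_EDA : EDA_stmt := EDA t_KMM t_USM t_VSM t_EXK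
theorem t_PKJ : PKJ_stmt := PKJ t_JEA t_PKA t_PKB t_PKC
theorem t_PKE : PKE_stmt := PKE t_PKA t_PKC t_EDA
theorem t_GJC : GJC_stmt := GJC t_J5 t_JB t_PKA t_PKB
theorem t_TRS : TRS_stmt := TRS
theorem t_TRB : TRB_stmt := TRB
theorem t_TRI : TRI_stmt := TRI t_TRS t_TRB
theorem t_LSM : LSM_stmt := LSM
theorem t_VSN : VSN_stmt := VSN t_L0B
theorem t_EDB : EDB_stmt := EDB t_KMM t_USM t_VSN t_EXK
theorem t_PKF : PKF_stmt := PKF t_EDB t_PKA t_PKC t_PKD
theorem t_GJR : GJR_stmt := GJR t_PKJ t_PKE t_PKF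
theorem t_GJF : GJF_stmt := GJF t_PKA t_J5 t_PKJ t_PKE t_PKF t_L0B
theorem t_NOD : NOD_stmt := NOD t_GJF t_GJC
theorem t_NDB : NDB_stmt := NDB t_NOD
theorem t_AZ : AZ_stmt := AZZ t_MSB t_LNB t_PKA t_GJR t_L0N t_NDB t_TRI t_LSM

/-- the final theorem of the project -/
theorem final : FN2_stmt := FN2 t_SZ t_AZ t_TZ t_RHO t_MIR t_INF

end SF
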