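import Mathlib
import Pool.Agent.helper68.SF.SpecS

/-!
Project SF (MP_d52931_gt), block sf: the final theorem, for the single curve `a⁴ b³`.
(Rules as in SpecW; import `Pool.Agent.helper68.SF.SpecF`.)
-/

set_option autoImplicit false

namespace SF

open Pool.Agent.helper72.Sq

/-- the orientation reversing automorphism `a ↦ a`, `b ↦ b⁻¹` -/
def bet : F2 →* F2 := mk2 ga gb⁻¹

/-- MIR: the mirror image of a metric. `bet` is an involution; for every mapping class `φ` there are a mapping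
class `φ'` and an element `c` with `bet (φ (bet g)) = c (φ' g) c⁻¹` for all `g` (closure induction: `twA` gives
`a ↦ a`, `b ↦ b a⁻¹ = a (a⁻¹ b) a⁻¹`, so `φ' = twA⁻¹`, `c = a`; `twB` gives `a ↦ a b⁻¹`, `b ↦ b`: `φ' = twB⁻¹`, `c = 1`).
So `cl g ↦ cl (bet g)` is a bijection of `orb (a⁴ b³)` onto `orb (a⁴ b⁻³)`, and
`gLen (ρ.comp bet) g = gLen ρ (bet g)`. The traces of `ρ.comp bet` are `(x, y, x y - z)`. -/
def MIR_stmt : Prop := ∀ ρ : F2 →* Matrix.SpecialLinearGroup (Fin 2) ℝ, Adm (trTri ρ (ga, gb)) →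
  Adm (trTri (ρ.comp bet) (ga, gb)) ∧
  (WL (ρ.comp bet) (ga ^ 4 * gb ^ 3) → WL ρ (ga ^ 4 * (gb ^ 3)⁻¹)) ∧
  (WL ρ (ga ^ 4 * (gb ^ 3)⁻¹) → WL (ρ.comp bet) (ga ^ 4 * gb ^ 3))

/-- INF: the orbit is infinite: `twA ^ n` maps `a⁴ b³` to an element with homology class `(4 + 3 n, 3)`, so the
classes are different (`ab` of SqT or `FreeGroup.lift` to `Multiplicative ℤ`). Primitivity: homology `(4, 3)`. -/
def INF_stmt : Prop := Infinite (orb (ga ^ 4 * gb ^ 3)) ∧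
  ∀ (h : F2) (n : ℤ), ga ^ 4 * gb ^ 3 = h ^ n → n = 1 ∨ n = -1

/-- FN2: the final theorem for the curve `a⁴ b³` (SZ, AZ, TZ, RHO, MIR, INF; `exists_enum`). -/
def FN2_stmt : Prop := ∃ (t : ℝ × ℝ × ℝ) (ρ : F2 →* Matrix.SpecialLinearGroup (Fin 2) ℝ),
  t ∈ Fricke ∧ tr (ρ ga) = t.1 ∧ tr (ρ gb) = t.2.1 ∧ tr (ρ (ga * gb)) = t.2.2 ∧
  (∃ e : ℕ ≃ orb (ga ^ 4 * gb ^ 3), Monotone (fun k => cLen ρ (e k))) ∧
  ∀ e : ℕ ≃ orb (ga ^ 4 * gb ^ 3), Monotone (fun k => cLen ρ (e k)) →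
    ∀ u v C : ℝ, ∃ k : ℕ, C < |u * √((k : ℝ) + 1) + v - cLen ρ (e k)|

end SF
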